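import Pool.Agent.W5h89.MTZ.Defs

/-!
# Classes which are Hodge classes and Tate classes: definitions
-/

open CategoryTheory AlgebraicGeometry

universe u v

namespace Pool.Agent.W5h89.MTZ

open Pool.Agent.H914 Pool.Agent.Y121.AHS
open Pool.Agent.Y133.Half (dimOf)

variable {k : Type u} [Field k] {𝒱 : VarClass k} {ops : CycleOps 𝒱} {T : HodgeTheory ops}
  {L : Type} [Field L] [Algebra T.W.K L] {Γ : Type v} [Group Γ]

/-- The rational class `c` of degree `2 j` is a Hodge class and a Tate class. -/
def IsHodgeTate (A : GaloisAction T L Γ) (X : 𝒱.Obj) (j : ℕ) (c : T.W.H X) : Prop :=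
  IsHodge T X j c ∧ IsTate A X j (emL T.W L c)

/-- The dimension over `ℚ` of the space spanned by the classes of all degrees which are both Hodge
classes and Tate classes. -/
noncomputable def hodgeTateDim (A : GaloisAction T L Γ) (X : 𝒱.Obj) : ℕ :=
  dimOf T.W {c | ∃ j, IsHodgeTate A X j c}

/-- Every Tate class of degree `2 j` is a linear combination, with coefficients in `L`, of rational
classes which are both Hodge classes and Tate classes. -/
def TateIsHodgeTate (A : GaloisAction T L Γ) (X : 𝒱.Obj) (j : ℕ) : Prop :=
  ∀ x, IsTate A X j x → x ∈ Submodule.span L {y | ∃ c, IsHodgeTate A X j c ∧ emL T.W L c = y}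

end Pool.Agent.W5h89.MTZ
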