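import Pool.Agent.W5h89.MTZ.Com
import Pool.Agent.W5h89.MTZ.CDefs
import Pool.Agent.Y121.AHS.Conv

/-!
# The two laws
-/

open CategoryTheory AlgebraicGeometry TensorProduct Filter Topology

universe u v

namespace Pool.Agent.W5h89.MTZ

open Module
open Pool.Agent.H914 Pool.Agent.H914.VarClass Pool.Agent.H914.VarClass.Obj
  Pool.Agent.H914.WeilCohomology
open Pool.Agent.Y121 Pool.Agent.Y121.AHS
open Pool.Agent.Y133.Half (pw ClassPred dimBy)

variable {k : Type u} [Field k] {𝒱 : VarClass k} {ops : CycleOps 𝒱}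
variable {T : HodgeTheory ops} {L : Type} [Field L] [Algebra T.W.K L] {Γ : Type v} [Group Γ]

/-- The conversion of the actions. -/
noncomputable def toA (A : GaloisAction T L Γ) : Act (baseW (toH T).W L) Γ where
  C g := toC (A.act g)
  lin g l := A.linear g l
  one X x := A.one X x
  mul g h X x := A.mul g h X x

lemma isTate_iff (A : GaloisAction T L Γ) (X : 𝒱.Obj) (j : ℕ) (x : HL T.W L X) :
    IsTate A X j x ↔ (tPred (toA A)).P X j x :=
  Iff.rfl

lemma isHodgeTate_iff (A : GaloisAction T L Γ) (X : 𝒱.Obj) (j : ℕ) (c : T.W.H X) :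
    IsHodgeTate A X j c ↔ (cPred (toA A)).P X j c :=
  Iff.rfl

theorem law_tate' (hL : Nonempty (L →+* ℂ)) (A : GaloisAction T L Γ) (X : 𝒱.Obj) :
    (∀ n j, TateIsHodgeTate A (pw X n) j) ∨
      RatioToZero (fun n => hodgeTateDim A (pw X n)) fun n => tateDim A (pw X n) := by
  obtain ⟨τ⟩ := hL
  rcases law_tate (T := toH T) (L := L) τ (toA A) X with h | h
  · left
    intro n j x hx
    exact h n j x hx
  · right
    exact h

theorem law_hodge' (hL : Nonempty (L →+* ℂ)) (A : GaloisAction T L Γ) (X : 𝒱.Obj) :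
    (∀ n j, HodgeIsTate A (pw X n) j) ∨
      RatioToZero (fun n => hodgeTateDim A (pw X n)) fun n => hodgeDim T (pw X n) := by
  obtain ⟨τ⟩ := hL
  have : CharZero L := ⟨fun a b hab => by
    have h := congrArg τ hab
    rw [map_natCast, map_natCast] at h
    exact_mod_cast h⟩
  rcases law_hodge (T := toH T) (L := L) (toA A) X with h | h
  · left
    intro n j c hc
    exact h n j c hc
  · right
    exact h

end Pool.Agent.W5h89.MTZ
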