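import Pool.Agent.W5h89.MTZ.Defs

/-!
# Motivic classes: definitions

`M` is a property of the classes of degree `2 j` on the varieties of the class. In the intended use the
classes with the property `M` are the motivated classes, or the absolutely Hodge classes.
-/

open CategoryTheory AlgebraicGeometry

universe u v

namespace Pool.Agent.W5h89.MTZ

open Pool.Agent.H914 Pool.Agent.Y121.AHS
open Pool.Agent.Y133.Half (dimOf)

variable {k : Type u} [Field k] {𝒱 : VarClass k} {ops : CycleOps 𝒱} {T : HodgeTheory ops}

/-- The classes with the property `M` are Tate classes for the action `A`. -/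
def AreTate (M : ∀ X : 𝒱.Obj, ℕ → T.W.H X → Prop) {L : Type} [Field L] [Algebra T.W.K L]
    {Γ : Type v} [Group Γ] (A : GaloisAction T L Γ) : Prop :=
  ∀ X j c, M X j c → IsTate A X j (emL T.W L c)

/-- The rational class `c` of degree `2 j` is a Hodge class, and it is a Tate class for all actions
of groups on the cohomology (with coefficients in a field which can be embedded into the complex
numbers) for which the classes with the property `M` are Tate classes. These groups include the
group of all automorphisms of the cohomology theory which fix the classes with the property `M`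
(the points of the motivic Galois group over the field of coefficients). -/
def IsMotivic (M : ∀ X : 𝒱.Obj, ℕ → T.W.H X → Prop) (X : 𝒱.Obj) (j : ℕ) (c : T.W.H X) : Prop :=
  IsHodge T X j c ∧ ∀ (L : Type) [Field L] [Algebra T.W.K L] (Γ : Type v) [Group Γ]
    (A : GaloisAction T L Γ), Nonempty (L →+* ℂ) → AreTate M A → IsTate A X j (emL T.W L c)

/-- The dimension over `ℚ` of the space spanned by the motivic classes of all degrees. -/
noncomputable def motDim (M : ∀ X : 𝒱.Obj, ℕ → T.W.H X → Prop) (X : 𝒱.Obj) : ℕ :=
  dimOf T.W {c | ∃ j, IsMotivic.{u, v} M X j c}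

/-- Every Tate class of degree `2 j` is a linear combination, with coefficients in `L`, of motivic
classes of degree `2 j`. -/
def TateIsMotivic (M : ∀ X : 𝒱.Obj, ℕ → T.W.H X → Prop) {L : Type} [Field L] [Algebra T.W.K L]
    {Γ : Type v} [Group Γ] (A : GaloisAction T L Γ) (X : 𝒱.Obj) (j : ℕ) : Prop :=
  ∀ x, IsTate A X j x →
    x ∈ Submodule.span L {y | ∃ c, IsMotivic.{u, v} M X j c ∧ emL T.W L c = y}

end Pool.Agent.W5h89.MTZ
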