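import Pool.Agent.W5h89.MTZ.Vir
import Pool.Agent.W5h89.MTZ.VDefs
import Pool.Agent.W5h89.MTZ.Conv2

/-!
# The two laws for motivic classes
-/

open CategoryTheory AlgebraicGeometry TensorProduct Filter Topology

universe u v

namespace Pool.Agent.W5h89.MTZ

open Module
open Pool.Agent.H914 Pool.Agent.H914.VarClass Pool.Agent.H914.VarClass.Obj
  Pool.Agent.H914.WeilCohomology
open Pool.Agent.Y121 Pool.Agent.Y121.AHS
open Pool.Agent.Y133.Half (pw ClassPred dimBy)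

variable {k : Type u} [Field k] {𝒱 : VarClass k} {ops : CycleOps 𝒱} {T : HodgeTheory ops}

/-- The actions for which the classes with the property `M` are Tate classes. -/
def actS (M : ∀ X : 𝒱.Obj, ℕ → T.W.H X → Prop) : Set (BAct.{u, v} (toH T)) :=
  {i | ∃ (L : Type) (_ : Field L) (_ : Algebra T.W.K L) (Γ : Type v) (_ : Group Γ)
    (A : GaloisAction T L Γ) (τ : L →+* ℂ), AreTate M A ∧ i = ⟨L, Γ, toA A, τ⟩}

lemma isMotivic_iff (M : ∀ X : 𝒱.Obj, ℕ → T.W.H X → Prop) (X : 𝒱.Obj) (j : ℕ) (c : T.W.H X) :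
    IsMotivic.{u, v} M X j c ↔ (ePred (actS.{u, v} M)).P X j c := by
  constructor
  · rintro ⟨h1, h2⟩
    refine ⟨h1, ?_⟩
    rintro i ⟨L, hL, hLa, Γ, hΓ, A, τ, hA, rfl⟩
    exact h2 L Γ A ⟨τ⟩ hA
  · rintro ⟨h1, h2⟩
    refine ⟨h1, fun L hL hLa Γ hΓ A hτ hA => ?_⟩
    obtain ⟨τ⟩ := hτ
    exact h2 ⟨L, Γ, toA A, τ⟩ ⟨L, hL, hLa, Γ, hΓ, A, τ, hA, rfl⟩

lemma motDim_eq (M : ∀ X : 𝒱.Obj, ℕ → T.W.H X → Prop) (X : 𝒱.Obj) :
    motDim.{u, v} M X = dimBy (toH T).W (ePred (actS.{u, v} M)).P X := by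
  have h : {c : T.W.H X | ∃ j, IsMotivic.{u, v} M X j c} =
      {c : T.W.H X | ∃ j, (ePred (actS.{u, v} M)).P X j c} := by
    ext c
    exact exists_congr fun j => isMotivic_iff M X j c
  rw [motDim, h]
  rfl

theorem law_tate_mot (M : ∀ X : 𝒱.Obj, ℕ → T.W.H X → Prop) {L : Type} [Field L]
    [Algebra T.W.K L] {Γ : Type v} [Group Γ] (hL : Nonempty (L →+* ℂ)) (A : GaloisAction T L Γ)
    (hA : AreTate M A) (X : 𝒱.Obj) :
    (∀ n j, TateIsMotivic M A (pw X n) j) ∨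
      RatioToZero (fun n => motDim.{u, v} M (pw X n)) fun n => tateDim A (pw X n) := by
  obtain ⟨τ⟩ := hL
  have hi : (⟨L, Γ, toA A, τ⟩ : BAct.{u, v} (toH T)) ∈ actS M := ⟨L, _, _, Γ, _, A, τ, hA, rfl⟩
  rcases law_ev hi X with h | h
  · left
    intro n j x hx
    refine Submodule.span_mono ?_ (h n j x hx)
    rintro y ⟨c, hc, rfl⟩
    exact ⟨c, (isMotivic_iff M _ j c).2 hc, rfl⟩
  · right
    have h1 : (fun n => motDim.{u, v} M (pw X n)) = fun n =>
        dimBy (toH T).W (ePred (actS.{u, v} M)).P (pw X n) := by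
      funext n
      exact motDim_eq M (pw X n)
    rw [h1]
    exact h

theorem law_hodge_mot (M : ∀ X : 𝒱.Obj, ℕ → T.W.H X → Prop) (X : 𝒱.Obj) :
    (∀ n j c, IsHodge T (pw X n) j c → IsMotivic.{u, v} M (pw X n) j c) ∨
      RatioToZero (fun n => motDim.{u, v} M (pw X n)) fun n => hodgeDim T (pw X n) := by
  rcases law_ev_hodge (S := actS.{u, v} M) X with h | h
  · left
    intro n j c hc
    exact (isMotivic_iff M _ j c).2 (h n j c hc)
  · right
    have h1 : (fun n => motDim.{u, v} M (pw X n)) = fun n =>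
        dimBy (toH T).W (ePred (actS.{u, v} M)).P (pw X n) := by
      funext n
      exact motDim_eq M (pw X n)
    rw [h1]
    exact h

end Pool.Agent.W5h89.MTZ
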