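import Mathlib

/-!
# Linear groups of finite exponent
-/

namespace Pool.Agent.W5h89.MTZ

open Module

variable {K V : Type*} [Field K] [AddCommGroup V] [Module K V] [Module.Finite K V]

/-- The traces of the endomorphisms of exponent `e` are finite in number. -/
lemma finite_traces {e : ℕ} (he : 0 < e) :
    {a : K | ∃ u : Module.End K V, u ^ e = 1 ∧ LinearMap.trace K V u = a}.Finite := by
  classical
  let b := Module.finBasis K V
  let n := finrank K V
  let L := AlgebraicClosure K
  have hinj : Function.Injective (algebraMap K L) := (algebraMap K L).injective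
  refine Set.Finite.of_finite_image (f := algebraMap K L) ?_ hinj.injOn
  have hfin : (Set.range fun f : Fin n → rootsOfUnity e L =>
      ∑ i, (((f i : rootsOfUnity e L) : Lˣ) : L)).Finite := by
    have : NeZero e := ⟨he.ne'⟩
    exact Set.finite_range _
  refine hfin.subset ?_
  rintro _ ⟨_, ⟨u, hu, rfl⟩, rfl⟩
  let M : Matrix (Fin n) (Fin n) L := (LinearMap.toMatrix b b u).map (algebraMap K L)
  have hM : M ^ e = 1 := by
    have h1 : (LinearMap.toMatrix b b u) ^ e = 1 := by
      rw [LinearMap.toMatrix_pow, hu]
      exact LinearMap.toMatrix_one b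
    have h2 : M ^ e = ((LinearMap.toMatrix b b u) ^ e).map (algebraMap K L) := by
      exact (map_pow ((algebraMap K L).mapMatrix) _ _).symm
    rw [h2, h1]
    exact map_one ((algebraMap K L).mapMatrix)
  have htr : algebraMap K L (LinearMap.trace K V u) = M.trace := by
    rw [LinearMap.trace_eq_matrix_trace K b u]
    exact (AddMonoidHom.map_trace (algebraMap K L) _)
  rw [htr, Matrix.trace_eq_sum_roots_charpoly]
  have hcard : (M.charpoly.roots).card = n := by
    rw [← (IsAlgClosed.splits M.charpoly).natDegree_eq_card_roots, Matrix.charpoly_natDegree_eq_dim,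
      Fintype.card_fin]
  have hroot : ∀ x ∈ M.charpoly.roots, x ^ e = 1 := by
    intro x hx
    have h1 : M.charpoly.IsRoot x := Polynomial.isRoot_of_mem_roots hx
    have h2 : Module.End.HasEigenvalue (Matrix.toLin' M) x := by
      rw [Module.End.hasEigenvalue_iff_isRoot_charpoly, Matrix.charpoly_toLin']
      exact h1
    obtain ⟨v, hv⟩ := h2.exists_hasEigenvector
    have h3 := hv.pow_apply e
    have h4 : (Matrix.toLin' M) ^ e = 1 := by
      rw [← Matrix.toLin'_pow, hM]
      exact Matrix.toLin'_one
    rw [h4] at h3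
    have h5 : (x ^ e - 1) • v = 0 := by
      rw [sub_smul, ← h3, one_smul]
      simp
    rcases smul_eq_zero.1 h5 with h6 | h6
    · exact sub_eq_zero.1 h6
    · exact absurd h6 hv.2
  obtain ⟨l, hl⟩ := Quot.exists_rep M.charpoly.roots
  have hl' : (l : Multiset L) = M.charpoly.roots := hl
  have hlen : l.length = n := by rw [← hcard, ← hl']; rfl
  have hmem : ∀ i : Fin n, (l.get (i.cast hlen.symm)) ^ e = 1 := by
    intro i
    apply hroot
    rw [← hl']
    exact List.get_mem _ _
  refine ⟨fun i => ⟨Units.mkOfMulEqOne (l.get (i.cast hlen.symm))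
    ((l.get (i.cast hlen.symm)) ^ (e - 1)) ?_, ?_⟩, ?_⟩
  · rw [← pow_succ', Nat.sub_add_cancel he]; exact hmem i
  · rw [mem_rootsOfUnity]
    ext
    simpa using hmem i
  · rw [← hl', Multiset.sum_coe]
    have h7 : (∑ i : Fin n, l.get (i.cast hlen.symm)) = l.sum := by
      rw [← List.sum_ofFn]
      congr 1
      apply List.ext_get
      · simp [hlen]
      · intro m h1 h2
        simp
    rw [← h7]
    rfl

/-- An element of a group of operators of exponent `e` is trivial if its powers have the trace of the
identity. -/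
lemma eq_one_of_trace [CharZero K] {u : Module.End K V} {e : ℕ} (he : 0 < e) (hu : u ^ e = 1)
    (h : ∀ k, LinearMap.trace K V (u ^ k) = finrank K V) : u = 1 := by
  let s : Module.End K V := ∑ k ∈ Finset.range e, u ^ k
  let P : Module.End K V := (e : K)⁻¹ • s
  have hus : u * s = s := by
    have h1 : u * s = ∑ k ∈ Finset.range e, u ^ (k + 1) := by
      simp only [s, Finset.mul_sum, pow_succ']
    have h2 := Finset.sum_range_succ' (fun k => u ^ k) e
    have h3 := Finset.sum_range_succ (fun k => u ^ k) e
    rw [h1]
    have h4 : (∑ k ∈ Finset.range e, u ^ (k + 1)) + u ^ 0 = s + u ^ e := by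
      rw [← h2, h3]
    rw [hu, pow_zero] at h4
    exact add_right_cancel h4
  have he' : (e : K) ≠ 0 := by exact_mod_cast he.ne'
  have huP : u * P = P := by simp only [P, mul_smul_comm, hus]
  have hukP : ∀ k, u ^ k * P = P := by
    intro k
    induction k with
    | zero => rw [pow_zero, one_mul]
    | succ k ih => rw [pow_succ, mul_assoc, huP, ih]
  have hPP : P * P = P := by
    have h1 : s * P = (e : K) • P := by
      simp only [s, Finset.sum_mul, hukP, Finset.sum_const, Finset.card_range]
      rw [Nat.cast_smul_eq_nsmul]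
    have h2 : P * P = (e : K)⁻¹ • (s * P) := by
      rw [show P * P = ((e : K)⁻¹ • s) * P from rfl, smul_mul_assoc]
    rw [h2, h1, smul_smul, inv_mul_cancel₀ he', one_smul]
  have htrP : LinearMap.trace K V P = finrank K V := by
    have h1 : LinearMap.trace K V s = e * finrank K V := by
      simp only [s, map_sum, h, Finset.sum_const, Finset.card_range, nsmul_eq_mul]
    rw [show P = (e : K)⁻¹ • s from rfl, map_smul, h1, smul_eq_mul, ← mul_assoc,
      inv_mul_cancel₀ he', one_mul]
  have hproj : LinearMap.IsProj (LinearMap.range P) P := by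
    refine ⟨fun x => LinearMap.mem_range_self _ _, ?_⟩
    rintro _ ⟨x, rfl⟩
    exact LinearMap.congr_fun hPP x
  have h2 := hproj.trace
  rw [htrP] at h2
  have h3 : finrank K V = finrank K (LinearMap.range P) := by exact_mod_cast h2
  have h4 : LinearMap.range P = ⊤ := Submodule.eq_top_of_finrank_eq h3.symm
  apply LinearMap.ext
  intro x
  have hx : x ∈ LinearMap.range P := by rw [h4]; trivial
  obtain ⟨y, rfl⟩ := hx
  exact LinearMap.congr_fun huP y

/-- **Burnside.** A linear group of finite exponent over a field of characteristic zero is finite. -/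
theorem finiteIndex_of_pow [CharZero K] {G : Type*} [Group G] (ρ : G →* Module.End K V) {e : ℕ}
    (he : 0 < e) (h : ∀ g, ρ g ^ e = 1) : ρ.toHomUnits.ker.FiniteIndex := by
  classical
  obtain ⟨s, hs, hspan⟩ := (Submodule.fg_span_iff_fg_span_finset_subset (Set.range ρ)).1
    (IsNoetherian.noetherian (Submodule.span K (Set.range ρ)))
  let τ : Module.End K V → (s → K) := fun u i => LinearMap.trace K V (u * i.1)
  have hclosed : ∀ i : s, ∃ g, ρ g = i.1 := fun i => hs i.2
  have hfin : (τ '' Set.range ρ).Finite := by
    have h1 : (Set.univ.pi fun _ : s =>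
        {a : K | ∃ u : Module.End K V, u ^ e = 1 ∧ LinearMap.trace K V u = a}).Finite :=
      Set.Finite.pi fun _ => finite_traces he
    refine h1.subset ?_
    rintro _ ⟨_, ⟨g, rfl⟩, rfl⟩ i -
    obtain ⟨g', hg'⟩ := hclosed i
    refine ⟨ρ (g * g'), h _, ?_⟩
    rw [map_mul, hg']
  have hinj : Set.InjOn τ (Set.range ρ) := by
    rintro _ ⟨g, rfl⟩ _ ⟨g', rfl⟩ hgg
    have h1 : ∀ a ∈ Submodule.span K (Set.range ρ),
        LinearMap.trace K V (ρ g * a) = LinearMap.trace K V (ρ g' * a) := by
      intro a ha
      rw [hspan] at ha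
      induction ha using Submodule.span_induction with
      | mem x hx => exact congrFun hgg ⟨x, hx⟩
      | zero => rw [mul_zero, mul_zero]
      | add x y _ _ hx hy => rw [mul_add, mul_add, map_add, map_add, hx, hy]
      | smul r x _ hx => rw [mul_smul_comm, mul_smul_comm, map_smul, map_smul, hx]
    have h2 : ∀ x : G, LinearMap.trace K V (ρ (g * x)) = LinearMap.trace K V (ρ (g' * x)) := by
      intro x
      rw [ρ.map_mul, ρ.map_mul]
      exact h1 _ (Submodule.subset_span ⟨x, rfl⟩)
    have h3 : ∀ k, LinearMap.trace K V ((ρ (g * g'⁻¹)) ^ k) = finrank K V := by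
      intro k
      induction k with
      | zero => rw [pow_zero]; exact LinearMap.trace_one K V
      | succ k ih =>
        rw [← ih, ← map_pow, ← map_pow, pow_succ', mul_assoc, h2]
        congr 2
        group
    have h4 := eq_one_of_trace he (h (g * g'⁻¹)) h3
    have h5 : ρ g = ρ (g * g'⁻¹) * ρ g' := by rw [← map_mul]; congr 1; group
    rw [h5, h4, one_mul]
  have hR : (Set.range ρ).Finite := Set.Finite.of_finite_image hfin hinj
  have hR' : Finite ρ.toHomUnits.range := by
    have h1 : (Set.range ρ.toHomUnits).Finite := by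
      refine Set.Finite.of_finite_image (f := fun u : (Module.End K V)ˣ => (u : Module.End K V))
        ?_ (Units.val_injective.injOn)
      refine hR.subset ?_
      rintro _ ⟨_, ⟨g, rfl⟩, rfl⟩
      exact ⟨g, rfl⟩
    exact h1
  infer_instance

end Pool.Agent.W5h89.MTZ
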