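import Pool.Agent.Y121.AH.ZeroOne

/-!
# The action of an automorphism of the cohomology, with the Tate twists
-/

open CategoryTheory AlgebraicGeometry TensorProduct

universe u

namespace Pool.Agent.W5h89.MTZ

open Module
open Pool.Agent.H914 Pool.Agent.H914.VarClass Pool.Agent.H914.VarClass.Obj
  Pool.Agent.H914.WeilCohomology
open Pool.Agent.Y133.Half Pool.Agent.Y121.AH

variable {k : Type u} [Field k] {𝒱 : VarClass k} {ops : CycleOps 𝒱}
  {V : WeilCohomology.{u, 0} ops} {X Y Z P : 𝒱.Obj}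

/-- A linear automorphism as a linear map. -/
noncomputable def linE (C : Comparison V V) (hs : ∀ l, C.s l = l) (X : 𝒱.Obj) :
    Module.End V.K (V.H X) where
  toFun := C.e X
  map_add' := map_add _
  map_smul' l a := by rw [C.semi, hs]; rfl

/-- The automorphism, multiplied by `c ^ (-i / 2)` in degree `i`. -/
noncomputable def nop (C : Comparison V V) (hs : ∀ l, C.s l = l) (X : 𝒱.Obj) :
    Module.End V.K (V.H X) :=
  dia (V.isInternal X) (fun i => (C.c ^ (i / 2))⁻¹) ∘ₗ linE C hs X

variable {C : Comparison V V} {hs : ∀ l, C.s l = l}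

lemma nop_gr {i : ℕ} {x : V.H X} (hx : x ∈ V.gr X i) :
    nop C hs X x = (C.c ^ (i / 2))⁻¹ • C.e X x :=
  dia_apply _ _ (C.gr.2 hx)

lemma nop_mem {i : ℕ} {x : V.H X} (hx : x ∈ V.gr X i) : nop C hs X x ∈ V.gr X i := by
  rw [nop_gr hx]
  exact Submodule.smul_mem _ _ (C.gr.2 hx)

lemma nop_eq_iff {j : ℕ} {x : V.H X} (hx : x ∈ V.gr X (2 * j)) :
    nop C hs X x = x ↔ C.e X x = C.c ^ j • x := by
  rw [nop_gr hx, Nat.mul_div_cancel_left _ (by norm_num : 0 < 2)]
  rw [inv_smul_eq_iff₀ (pow_ne_zero _ C.ne)]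

lemma nop_mul {j : ℕ} {x : V.H X} (hx : x ∈ V.gr X (2 * j)) (y : V.H X) :
    nop C hs X (x * y) = nop C hs X x * nop C hs X y := by
  refine gr_induction (V.isInternal X)
    (p := fun y => nop C hs X (x * y) = nop C hs X x * nop C hs X y) ?_ ?_ y
  · intro i y hy
    rw [nop_gr hx, nop_gr hy, nop_gr (V.mul_mem hx hy), map_mul (C.e X), smul_mul_smul_comm]
    congr 1
    rw [← mul_inv, ← pow_add]
    congr 2
    omega
  · intro a b ha hb
    rw [mul_add, map_add, ha, hb, map_add, mul_add]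

lemma nop_mul' {x : V.H X} (hx : x ∈ PH V X 0) (y : V.H X) :
    nop C hs X (x * y) = nop C hs X x * nop C hs X y := by
  refine Submodule.iSup_induction (p := fun i => ⨆ (_ : i % 2 = 0 % 2), V.gr X i)
    (motive := fun x => nop C hs X (x * y) = nop C hs X x * nop C hs X y) hx ?_ ?_ ?_
  · intro i x hx
    by_cases hi : i % 2 = 0 % 2
    · rw [iSup_pos hi] at hx
      obtain ⟨j, rfl⟩ : ∃ j, i = 2 * j := ⟨i / 2, by omega⟩
      exact nop_mul hx y
    · rw [iSup_neg hi, Submodule.mem_bot] at hx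
      rw [hx, zero_mul, map_zero, zero_mul]
  · rw [zero_mul, map_zero, zero_mul]
  · intro a b ha hb
    rw [add_mul, map_add, ha, hb, map_add, add_mul]

lemma nop_map (f : X ⟶ Y) (y : V.H Y) :
    nop C hs X (V.map f y) = V.map f (nop C hs Y y) := by
  refine gr_induction (V.isInternal Y)
    (p := fun y => nop C hs X (V.map f y) = V.map f (nop C hs Y y)) ?_ ?_ y
  · intro i y hy
    rw [nop_gr hy, nop_gr (V.map_mem f hy), C.nat, map_smul]
  · intro a b ha hb
    rw [map_add, map_add, ha, hb, map_add, map_add]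

lemma nop_push (f : X ⟶ Y) (x : V.H X) :
    nop C hs Y (V.push f x) = V.push f (nop C hs X x) := by
  refine gr_induction (V.isInternal X)
    (p := fun x => nop C hs Y (V.push f x) = V.push f (nop C hs X x)) ?_ ?_ x
  · intro i x hx
    rcases lt_or_ge ((i : ℤ) + 2 * ((Y.dim : ℤ) - X.dim)) 0 with hneg | hpos
    · have key : ∀ x ∈ V.gr X i, V.push f x = 0 := by
        intro x hx
        have h1 := V.push_mem f hx
        rw [grZ_of_neg hneg] at h1
        exact (Submodule.mem_bot _).1 h1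
      rw [key x hx, key _ (nop_mem hx), map_zero]
    · obtain ⟨l, hl⟩ := Int.eq_ofNat_of_zero_le hpos
      have h1 := V.push_mem f hx
      rw [hl, grZ_natCast] at h1
      rw [nop_gr hx, nop_gr h1, map_smul]
      have h2 := C.push f x
      have h3 : C.c ^ X.dim ≠ 0 := pow_ne_zero _ C.ne
      have h4 : C.c ^ (i / 2) ≠ 0 := pow_ne_zero _ C.ne
      have h5 : C.c ^ (l / 2) ≠ 0 := pow_ne_zero _ C.ne
      rw [inv_smul_eq_iff₀ h5, smul_smul]
      apply smul_right_injective _ h3
      beta_reduce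
      rw [h2, smul_smul]
      congr 1
      have h6 : X.dim + l / 2 = Y.dim + i / 2 := by omega
      field_simp
      rw [← pow_add, ← pow_add, h6]
  · intro a b ha hb
    rw [map_add, map_add, ha, hb, map_add, map_add]

end Pool.Agent.W5h89.MTZ
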