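import Pool.Agent.W5h89.MTZ.Fix
import Pool.Agent.W5h89.MTZ.Nop
import Pool.Agent.W5h89.MTZ.Burn

/-!
# Classes which are generated by classes fixed by subgroups of finite index
-/

open CategoryTheory AlgebraicGeometry TensorProduct

universe u v

namespace Pool.Agent.W5h89.MTZ

open Module
open Pool.Agent.H914 Pool.Agent.H914.VarClass Pool.Agent.H914.VarClass.Obj
  Pool.Agent.H914.WeilCohomology
open Pool.Agent.Y133.Half Pool.Agent.Y121.AH

section Alg

lemma exists_eq_of_sums {K : Type*} [Field K] {d : ℕ} {μ a : ℕ → K}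
    (h : ∀ m ≤ d, ∑ k ∈ Finset.range (d + 1), μ k * a k ^ (m + 1) = 0) (h0 : μ 0 ≠ 0)
    (ha : a 0 ≠ 0) : ∃ k, 1 ≤ k ∧ k ≤ d ∧ a k = a 0 := by
  by_contra hcon
  push Not at hcon
  let r : Polynomial K := ∏ k ∈ Finset.Icc 1 d, (Polynomial.X - Polynomial.C (a k))
  have hdeg : r.natDegree < d + 1 := by
    have h1 : r.natDegree ≤ ∑ k ∈ Finset.Icc 1 d,
        (Polynomial.X - Polynomial.C (a k)).natDegree := Polynomial.natDegree_prod_le _ _
    simp only [Polynomial.natDegree_X_sub_C, Finset.sum_const, Nat.card_Icc, smul_eq_mul,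
      mul_one] at h1
    omega
  have hr : ∀ x, r.eval x = ∑ m ∈ Finset.range (d + 1), r.coeff m * x ^ m := fun x =>
    Polynomial.eval_eq_sum_range' hdeg x
  have h1 : ∑ k ∈ Finset.range (d + 1), μ k * (a k * r.eval (a k)) = 0 := by
    have h2 : ∀ k ∈ Finset.range (d + 1), μ k * (a k * r.eval (a k)) =
        ∑ m ∈ Finset.range (d + 1), r.coeff m * (μ k * a k ^ (m + 1)) := by
      intro k _
      rw [hr, Finset.mul_sum, Finset.mul_sum]
      exact Finset.sum_congr rfl fun m _ => by ring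
    rw [Finset.sum_congr rfl h2, Finset.sum_comm]
    refine Finset.sum_eq_zero fun m hm => ?_
    rw [← Finset.mul_sum, h m (by rw [Finset.mem_range] at hm; omega), mul_zero]
  rw [Finset.sum_eq_single 0] at h1
  · have h3 : r.eval (a 0) ≠ 0 := by
      rw [Polynomial.eval_prod, Finset.prod_ne_zero_iff]
      intro k hk
      rw [Finset.mem_Icc] at hk
      rw [Polynomial.eval_sub, Polynomial.eval_X, Polynomial.eval_C, sub_ne_zero]
      exact (hcon k hk.1 hk.2).symm
    exact mul_ne_zero h0 (mul_ne_zero ha h3) h1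
  · intro k hk hk0
    rw [Finset.mem_range] at hk
    have h4 : r.eval (a k) = 0 := by
      rw [Polynomial.eval_prod]
      refine Finset.prod_eq_zero (i := k) (by rw [Finset.mem_Icc]; omega) ?_
      rw [Polynomial.eval_sub, Polynomial.eval_X, Polynomial.eval_C, sub_self]
    rw [h4, mul_zero, mul_zero]
  · intro h5
    exact absurd (Finset.mem_range.2 (Nat.succ_pos d)) h5

/-- Finitely many conditions on elements of groups. -/
lemma exists_inf {Γ : Type*} [Group Γ] {p : ℕ → Γ → Prop}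
    (h : ∀ m, ∃ Δ : Subgroup Γ, Δ.FiniteIndex ∧ ∀ g ∈ Δ, p m g) (N : ℕ) :
    ∃ Δ : Subgroup Γ, Δ.FiniteIndex ∧ ∀ g ∈ Δ, ∀ m ≤ N, p m g := by
  induction N with
  | zero =>
    obtain ⟨Δ, h1, h2⟩ := h 0
    exact ⟨Δ, h1, fun g hg m hm => by rw [Nat.le_zero.1 hm]; exact h2 g hg⟩
  | succ N ih =>
    obtain ⟨Δ, h1, h2⟩ := ih
    obtain ⟨Δ', h3, h4⟩ := h (N + 1)
    refine ⟨Δ ⊓ Δ', inferInstance, fun g hg m hm => ?_⟩
    rcases Nat.lt_or_ge m (N + 1) with h5 | h5
    · exact h2 g hg.1 m (by omega)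
    · have h6 : m = N + 1 := by omega
      rw [h6]
      exact h4 g hg.2

/-- An element which is fixed by bounded powers of the elements of a subgroup of finite index is fixed
by a subgroup of finite index. -/
lemma exists_fix_of_pow {K V : Type*} [Field K] [CharZero K] [AddCommGroup V] [Module K V]
    [Module.Finite K V] {Γ : Type*} [Group Γ] (ρ : Γ →* Module.End K V) {t : V} {e : ℕ}
    (he : 0 < e) (Δ : Subgroup Γ) (hΔ : Δ.FiniteIndex) (h : ∀ g ∈ Δ, (ρ g ^ e) t = t) :
    ∃ Δ' : Subgroup Γ, Δ'.FiniteIndex ∧ ∀ g ∈ Δ', ρ g t = t := by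
  let U : Submodule K V := Submodule.span K {x | ∃ g ∈ Δ, ρ g t = x}
  have hU : ∀ g ∈ Δ, ∀ x ∈ U, ρ g x ∈ U := by
    intro g hg x hx
    induction hx using Submodule.span_induction with
    | mem x hx =>
      obtain ⟨g', hg', rfl⟩ := hx
      refine Submodule.subset_span ⟨g * g', Δ.mul_mem hg hg', ?_⟩
      rw [map_mul]; rfl
    | zero => rw [map_zero]; exact Submodule.zero_mem _
    | add x y _ _ hx hy => rw [map_add]; exact Submodule.add_mem _ hx hy
    | smul r x _ hx => rw [map_smul]; exact Submodule.smul_mem _ _ hx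
  let ρ' : Δ →* Module.End K U :=
    { toFun := fun g => (ρ g.1).restrict (hU g.1 g.2)
      map_one' := by
        ext x
        rw [LinearMap.coe_restrict_apply, Subgroup.coe_one, map_one]
        rfl
      map_mul' := fun g g' => by
        ext x
        rw [LinearMap.coe_restrict_apply, Subgroup.coe_mul, map_mul]
        rfl }
  have hρ' : ∀ (g : Δ) (x : U), ((ρ' g x : U) : V) = ρ g.1 x.1 := fun g x => rfl
  have hpow : ∀ (g : Δ) (n : ℕ) (x : U), (((ρ' g ^ n) x : U) : V) = (ρ g.1 ^ n) x.1 := by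
    intro g n
    induction n with
    | zero => intro x; rfl
    | succ n ih =>
      intro x
      rw [pow_succ', pow_succ', Module.End.mul_apply, Module.End.mul_apply, hρ', ih]
  have hexp : ∀ g : Δ, ρ' g ^ e = 1 := by
    intro g
    ext ⟨x, hx⟩
    rw [hpow]
    change (ρ g.1 ^ e) x = x
    induction hx using Submodule.span_induction with
    | mem x hx =>
      obtain ⟨g', hg', rfl⟩ := hx
      have h1 := h (g'⁻¹ * g.1 * g') (Δ.mul_mem (Δ.mul_mem (Δ.inv_mem hg') g.2) hg')
      have h2 : (ρ g.1 ^ e) (ρ g' t) = ρ g' ((ρ (g'⁻¹ * g.1 * g') ^ e) t) := by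
        rw [← map_pow, ← map_pow]
        rw [← Module.End.mul_apply, ← Module.End.mul_apply, ← map_mul, ← map_mul]
        congr 2
        rw [show g'⁻¹ * g.1 * g' = g'⁻¹ * g.1 * (g'⁻¹)⁻¹ by rw [inv_inv], conj_pow]
        group
      rw [h2, h1]
    | zero => rw [map_zero]
    | add x y _ _ hx hy => rw [map_add, hx, hy]
    | smul r x _ hx => rw [map_smul, hx]
  have hker := finiteIndex_of_pow ρ' he hexp
  refine ⟨ρ'.toHomUnits.ker.map Δ.subtype, ?_, ?_⟩
  · constructor
    rw [Subgroup.index_map_subtype]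
    exact mul_ne_zero hker.index_ne_zero hΔ.index_ne_zero
  · rintro g ⟨g', hg', rfl⟩
    have h1 : ρ'.toHomUnits g' = 1 := hg'
    have h2 : ρ' g' = 1 := by
      have := congrArg (fun u : (Module.End K U)ˣ => (u : Module.End K U)) h1
      exact this
    have ht : t ∈ U := Submodule.subset_span ⟨1, Δ.one_mem, by rw [map_one]; rfl⟩
    have h3 := congrArg (fun f : Module.End K U => ((f ⟨t, ht⟩ : U) : V)) h2
    exact h3

end Alg

variable {k : Type u} [Field k] {𝒱 : VarClass k} {ops : CycleOps 𝒱}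
  {X Y Z P : 𝒱.Obj}

section Nop

variable {V : WeilCohomology.{u, 0} ops} {C : Comparison V V} {hs : ∀ l, C.s l = l}

lemma nop_injective : Function.Injective (nop C hs X) := by
  intro x y hxy
  have key : ∀ x, dia (V.isInternal X) (fun i => (C.c ^ (i / 2))) (nop C hs X x) = C.e X x := by
    intro x
    refine gr_induction (V.isInternal X) (p := fun x =>
      dia (V.isInternal X) (fun i => (C.c ^ (i / 2))) (nop C hs X x) = C.e X x) ?_ ?_ x
    · intro i a ha
      rw [dia_apply _ _ (nop_mem ha), nop_gr ha, smul_smul, mul_inv_cancel₀ (pow_ne_zero _ C.ne),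
        one_smul]
    · intro a b ha hb
      rw [map_add, map_add, ha, hb, map_add]
  apply (C.e X).injective
  rw [← key, ← key, hxy]

lemma charpoly_coeff_ne : (nop C hs X).charpoly.coeff 0 ≠ 0 := by
  intro h
  have h1 := LinearMap.det_eq_sign_charpoly_coeff (nop C hs X)
  rw [h, mul_zero] at h1
  have h2 : LinearMap.ker (nop C hs X) = ⊥ := LinearMap.ker_eq_bot.2 nop_injective
  exact LinearMap.det_eq_zero_iff_ker_ne_bot.1 h1 h2

lemma nop_xpw {u : V.H Z} (hu : u ∈ PH V Z 0) :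
    ∀ m, nop C hs (pw Z m) (xpw V u m) = xpw V (nop C hs Z u) m
  | 0 => rfl
  | m + 1 => by
    have h : nop C hs ((pw Z m).prod Z) (xp V (xpw V u m) u) =
        xp V (xpw V (nop C hs Z u) m) (nop C hs Z u) := by
      rw [xp, nop_mul' (PH.map _ (xpw_even hu m)), nop_map, nop_map, nop_xpw hu m, xp]
    exact h

lemma pow_mem {i : ℕ} {u : V.H Z} (hu : u ∈ V.gr Z i) (k : ℕ) : (nop C hs Z ^ k) u ∈ V.gr Z i := by
  induction k with
  | zero => exact hu
  | succ k ih => rw [pow_succ', Module.End.mul_apply]; exact nop_mem ih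

lemma pow_xpw {j : ℕ} {u : V.H Z} (hu : u ∈ V.gr Z (2 * j)) (m k : ℕ) :
    (nop C hs (pw Z m) ^ k) (xpw V u m) = xpw V ((nop C hs Z ^ k) u) m := by
  induction k with
  | zero => rfl
  | succ k ih =>
    rw [pow_succ', pow_succ', Module.End.mul_apply, Module.End.mul_apply, ih,
      nop_xpw (PH.of' (by omega) (pow_mem hu k))]

/-- Polynomial relations for some external powers force that a power of the operator fixes the
class. -/
lemma exists_pow_fix [Infinite V.K] {μ : Polynomial V.K} {d : ℕ} (hd : μ.natDegree < d + 1)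
    (hμ : μ.coeff 0 ≠ 0)
    {j : ℕ} {v : V.H Z} (hv : v ∈ V.gr Z (2 * j))
    (h : ∀ m ≤ d, Polynomial.aeval (nop C hs (pw Z m)) μ (xpw V v m) = 0) (hd0 : 0 < d) :
    ∃ k, 1 ≤ k ∧ k ≤ d ∧ (nop C hs Z ^ k) v = v := by
  classical
  by_cases hv0 : v = 0
  · exact ⟨1, le_rfl, hd0, by rw [hv0, map_zero]⟩
  let t : ℕ → V.H Z := fun k => (nop C hs Z ^ k) v
  have ht : ∀ k, t k ∈ V.gr Z (2 * j) := fun k => pow_mem hv k
  have ht0 : t 0 = v := rfl
  let w : Fin (d + 1) → V.H Z := fun k => if t k = v then v else t k - v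
  have hw0 : ∀ k, w k ≠ 0 := by
    intro k
    by_cases hk : t k = v
    · simp only [w, if_pos hk]; exact hv0
    · simp only [w, if_neg hk]; exact sub_ne_zero.2 hk
  have hw1 : ∀ k, w k ∈ V.gr Z (2 * j) := by
    intro k
    by_cases hk : t k = v
    · simp only [w, if_pos hk]; exact hv
    · simp only [w, if_neg hk]; exact Submodule.sub_mem _ (ht k) hv
  have hex : ∀ k, ∃ y ∈ PH V Z 0, (V.tr Z ∘ₗ LinearMap.mulLeft V.K (w k)) y ≠ 0 := by
    intro k
    by_contra hcon
    push Not at hcon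
    apply hw0 k
    apply V.nondeg
    intro b
    refine gr_induction (V.isInternal Z) (p := fun b => V.tr Z (w k * b) = 0) ?_ ?_ b
    · intro i b hb
      rcases Nat.even_or_odd' i with ⟨l, rfl | rfl⟩
      · exact hcon b (PH.of' (by omega) hb)
      · exact V.tr_eq_zero (V.mul_mem (hw1 k) hb) (by omega)
    · intro a b ha hb
      rw [mul_add, map_add, ha, hb, add_zero]
  obtain ⟨y, hy, hyw⟩ := Module.Dual.exists_forall_mem_ne_zero_of_forall_exists (PH V Z 0)
    (fun k => V.tr Z ∘ₗ LinearMap.mulLeft V.K (w k)) hex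
  have key : ∀ m ≤ d, ∑ k ∈ Finset.range (d + 1), μ.coeff k * V.tr Z (t k * y) ^ (m + 1) = 0 := by
    intro m hm
    have h1 := h m hm
    rw [Polynomial.aeval_eq_sum_range' hd, LinearMap.sum_apply] at h1
    have h2 := congrArg (fun x => V.tr (pw Z m) (x * xpw V y m)) h1
    beta_reduce at h2
    rw [zero_mul, map_zero, Finset.sum_mul, map_sum] at h2
    rw [← h2]
    refine Finset.sum_congr rfl fun k _ => ?_
    rw [LinearMap.smul_apply, pow_xpw hv, smul_mul_assoc, map_smul, smul_eq_mul,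
      tr_xpw (PH.of' (by omega) (ht k)) hy m]
  have ha : V.tr Z (t 0 * y) ≠ 0 := by
    have h1 := hyw 0
    have h2 : w 0 = v := by simp only [w]; exact if_pos rfl
    rw [h2] at h1
    exact h1
  obtain ⟨k, hk1, hkd, hk⟩ := exists_eq_of_sums key hμ ha
  refine ⟨k, hk1, hkd, ?_⟩
  by_contra hne
  have h1 := hyw ⟨k, by omega⟩
  have h2 : w ⟨k, by omega⟩ = t k - v := if_neg hne
  rw [h2] at h1
  apply h1
  change V.tr Z ((t k - v) * y) = 0
  rw [sub_mul, map_sub, hk, ht0, sub_self]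

end Nop

section Gen

variable {V V' : WeilCohomology.{u, 0} ops} {S R : Sys V}

lemma rlz_even (F : Rlz V V') {x : V.H X} (hx : x ∈ PH V X 0) : F.E X x ∈ PH V' X 0 := by
  refine Submodule.iSup_induction (p := fun i => ⨆ (_ : i % 2 = 0 % 2), V.gr X i)
    (motive := fun x => F.E X x ∈ PH V' X 0) hx ?_ ?_ ?_
  · intro i x hx
    by_cases hi : i % 2 = 0 % 2
    · rw [iSup_pos hi] at hx
      exact PH.of' hi (F.gr hx)
    · rw [iSup_neg hi, Submodule.mem_bot] at hx
      rw [hx, map_zero]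
      exact Submodule.zero_mem _
  · rw [map_zero]
    exact Submodule.zero_mem _
  · intro a b ha hb
    rw [map_add]
    exact Submodule.add_mem _ ha hb

/-- The realisation of the operators of the system. -/
lemma op_nop (R : Rlz V V') {C : Comparison V' V'} {hs : ∀ l, C.s l = l}
    (hS : ∀ x ∈ S.C (P.prod Z), nop C hs _ (R.E _ x) = R.E _ x) {f : V.H P →ₗ[V.K] V.H Z}
    (hf : f ∈ S.Op P Z) :
    ∃ F : V'.H P →ₗ[V'.K] V'.H Z,
      (∀ x, F (R.E P x) = R.E Z (f x)) ∧ ∀ y, nop C hs Z (F y) = F (nop C hs P y) := by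
  obtain ⟨c, hc, rfl⟩ := Sys.mem_Op.1 hf
  have hne : R.c ^ P.dim ≠ 0 := pow_ne_zero _ R.ne
  have hne' : R.c ^ Z.dim ≠ 0 := pow_ne_zero _ R.ne
  refine ⟨(R.c ^ P.dim)⁻¹ • V'.corr (R.E _ c), fun x => ?_, fun y => ?_⟩
  · rw [LinearMap.smul_apply, corr_apply, corr_apply]
    have h := R.push (snd P Z) (c * V.map (fst P Z) x)
    rw [dim_prod, map_mul (R.E (P.prod Z)), R.nat] at h
    have h2 : R.c ^ Z.dim • (R.c ^ P.dim • R.E Z (V.push (snd P Z) (c * V.map (fst P Z) x))) =
        R.c ^ Z.dim • (V'.push (snd P Z) (R.E _ c * V'.map (fst P Z) (R.E P x))) := by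
      rw [← h, smul_smul, ← pow_add, Nat.add_comm Z.dim]
    have h3 := smul_right_injective _ hne' h2
    beta_reduce at h3
    rw [← h3, smul_smul, inv_mul_cancel₀ hne, one_smul]
  · rw [LinearMap.smul_apply, LinearMap.smul_apply, corr_apply, corr_apply, map_smul, nop_push,
      nop_mul' (rlz_even R (S.even hc)), nop_map, hS c hc]

lemma gen_nop (R : Rlz V V') {C : Comparison V' V'} {hs : ∀ l, C.s l = l}
    (hS : ∀ x ∈ S.C (P.prod Z), nop C hs _ (R.E _ x) = R.E _ x)
    {μ : Polynomial V'.K} (hμ : Polynomial.aeval (nop C hs P) μ = 0)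
    {M : Submodule V.K (V.H P)} {x : V.H Z} (hx : x ∈ gen S P Z M) :
    Polynomial.aeval (nop C hs Z) μ (R.E Z x) = 0 := by
  induction hx using Submodule.span_induction with
  | mem x hx =>
    obtain ⟨f, hf, t, ht, rfl⟩ := hx
    obtain ⟨F, h1, h2⟩ := op_nop R hS hf
    rw [← h1, aeval_comm h2, hμ, LinearMap.zero_apply, map_zero]
  | zero => rw [map_zero, map_zero]
  | add x y _ _ hx hy => rw [map_add, map_add, hx, hy, add_zero]
  | smul r x _ hx => rw [R.semi, map_smul, hx, smul_zero]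

lemma rlz_xp (R : Rlz V V') (a : V.H X) (b : V.H Y) :
    R.E (X.prod Y) (xp V a b) = xp V' (R.E X a) (R.E Y b) := by
  rw [xp, map_mul, R.nat, R.nat, xp]

/-- The external powers. -/
lemma rlz_xpw (R : Rlz V V') (v : V.H Z) : ∀ m, R.E (pw Z m) (xpw V v m) = xpw V' (R.E Z v) m
  | 0 => rfl
  | m + 1 => by
    have h := rlz_xp R (xpw V v m) v
    rw [rlz_xpw R v m] at h
    exact h

/-- An action of a group on the cohomology. -/
structure Act (V : WeilCohomology.{u, 0} ops) (Γ : Type v) [Group Γ] where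
  C : Γ → Comparison V V
  lin : ∀ g l, (C g).s l = l
  one : ∀ (X : 𝒱.Obj) (x : V.H X), (C 1).e X x = x
  mul : ∀ g h (X : 𝒱.Obj) (x : V.H X), (C (g * h)).e X x = (C g).e X ((C h).e X x)

variable {Γ : Type v} [Group Γ]

/-- The effect on the Tate twist is a homomorphism, if there is a divisor which is not zero. -/
lemma Act.c_mul (A : Act V Γ) {D : X.Cycles} (hD : X.IsCyc 1 D) (h0 : V.cl X D ≠ 0) (g h : Γ) :
    (A.C (g * h)).c = (A.C g).c * (A.C h).c := by
  have h1 := A.mul g h X (V.cl X D)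
  rw [(A.C (g * h)).cyc hD, (A.C h).cyc hD, (A.C g).semi, A.lin, (A.C g).cyc hD, smul_smul, pow_one,
    pow_one, pow_one] at h1
  have h2 := smul_left_injective _ h0 h1
  rw [h2, mul_comm]

lemma Act.c_one (A : Act V Γ) {D : X.Cycles} (hD : X.IsCyc 1 D) (h0 : V.cl X D ≠ 0) :
    (A.C 1).c = 1 := by
  have h1 := A.one X (V.cl X D)
  rw [(A.C 1).cyc hD, pow_one] at h1
  exact smul_left_injective _ h0 (h1.trans (one_smul _ _).symm)

/-- The representation. -/
noncomputable def Act.rep (A : Act V Γ) (h1 : (A.C 1).c = 1)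
    (hc : ∀ g h, (A.C (g * h)).c = (A.C g).c * (A.C h).c) (Z : 𝒱.Obj) :
    Γ →* Module.End V.K (V.H Z) where
  toFun g := nop (A.C g) (A.lin g) Z
  map_one' := by
    apply LinearMap.ext
    intro x
    refine gr_induction (V.isInternal Z)
      (p := fun x => nop (A.C 1) (A.lin 1) Z x = (1 : Module.End _ _) x) ?_ ?_ x
    · intro i x hx
      rw [nop_gr hx, h1, one_pow, inv_one, one_smul, A.one]
      rfl
    · intro a b ha hb
      rw [map_add, ha, hb, map_add]
  map_mul' g h := by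
    apply LinearMap.ext
    intro x
    refine gr_induction (V.isInternal Z)
      (p := fun x => nop (A.C (g * h)) (A.lin (g * h)) Z x =
        (nop (A.C g) (A.lin g) Z * nop (A.C h) (A.lin h) Z) x) ?_ ?_ x
    · intro i x hx
      rw [Module.End.mul_apply, nop_gr hx, nop_gr (nop_mem hx), nop_gr hx, (A.C g).semi, A.lin,
        smul_smul, A.mul, hc, mul_pow, mul_inv]
    · intro a b ha hb
      rw [map_add, ha, hb, map_add]

/-- **Classes which are generated by the operators of a system of potentially fixed classes.** -/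
theorem tate_of_genBy [CharZero V'.K] (F : Rlz V V') (A : Act V' Γ) (h1 : (A.C 1).c = 1)
    (hc : ∀ g h, (A.C (g * h)).c = (A.C g).c * (A.C h).c)
    (hS : ∀ Y : 𝒱.Obj, ∃ Δ : Subgroup Γ, Δ.FiniteIndex ∧ ∀ g ∈ Δ, ∀ x ∈ S.C Y,
      nop (A.C g) (A.lin g) Y (F.E Y x) = F.E Y x)
    (hgen : GenBy S R X P) {n j : ℕ} {v : V.H (pw X n)} (hv : v ∈ V.gr (pw X n) (2 * j))
    (hvR : v ∈ R.C (pw X n)) :
    ∃ Δ : Subgroup Γ, Δ.FiniteIndex ∧ ∀ g ∈ Δ,
      nop (A.C g) (A.lin g) (pw X n) (F.E _ v) = F.E _ v := by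
  set d := finrank V'.K (V'.H P) + 1 with hd
  have hd0 : 0 < d := Nat.succ_pos _
  obtain ⟨Δ, hΔ, hfix⟩ := exists_inf (p := fun m g => ∀ x ∈ S.C (P.prod (pw (pw X n) m)),
    nop (A.C g) (A.lin g) _ (F.E _ x) = F.E _ x) (fun m => hS _) d
  have hpow : ∀ g ∈ Δ, ((A.rep h1 hc (pw X n) g) ^ (d.factorial)) (F.E _ v) = F.E _ v := by
    intro g hg
    have h2 : ∀ m ≤ d, Polynomial.aeval (nop (A.C g) (A.lin g) (pw (pw X n) m))
        (nop (A.C g) (A.lin g) P).charpoly (xpw V' (F.E _ v) m) = 0 := by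
      intro m hm
      rw [← rlz_xpw]
      obtain ⟨r, hr⟩ := pw_pw X n m
      exact gen_nop F (hfix g hg m hm) (LinearMap.aeval_self_charpoly _)
        (hgen r _ hr (xpw_mem R hvR m))
    have hdeg : (nop (A.C g) (A.lin g) P).charpoly.natDegree < d + 1 := by
      rw [LinearMap.charpoly_natDegree]
      omega
    obtain ⟨k, hk1, hkd, hk⟩ := exists_pow_fix hdeg charpoly_coeff_ne (F.gr hv) h2 hd0
    obtain ⟨q, hq⟩ := Nat.dvd_factorial hk1 hkd
    have h3 : ∀ q : ℕ, ((nop (A.C g) (A.lin g) (pw X n)) ^ (k * q)) (F.E _ v) = F.E _ v := by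
      intro q
      induction q with
      | zero => rw [mul_zero, pow_zero]; rfl
      | succ q ih => rw [mul_add, mul_one, pow_add, Module.End.mul_apply, hk, ih]
    rw [hq]
    exact h3 q
  exact exists_fix_of_pow (A.rep h1 hc (pw X n)) (Nat.factorial_pos d) Δ hΔ hpow

end Gen

end Pool.Agent.W5h89.MTZ
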