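import Pool.Agent.Y121.AH.Dom
import Pool.Agent.W5h89.MTZ.Gal

/-!
# Extension of the coefficients for an action on the cohomology
-/

open CategoryTheory AlgebraicGeometry TensorProduct

universe u v

namespace Pool.Agent.W5h89.MTZ

open Module
open Pool.Agent.H914 Pool.Agent.H914.VarClass Pool.Agent.H914.VarClass.Obj
  Pool.Agent.H914.WeilCohomology
open Pool.Agent.Y133.Half Pool.Agent.Y121.AH

variable {k : Type u} [Field k] {𝒱 : VarClass k} {ops : CycleOps 𝒱}
  {W : WeilCohomology.{u, 0} ops} {L M : Type} [Field L] [Field M] [Algebra W.K L]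
  [Algebra W.K M] (τ : L →ₐ[W.K] M) {X Y : 𝒱.Obj}

/-- The values on the rational classes. -/
noncomputable def preF (C : Comparison (baseW W L) (baseW W L)) (hs : ∀ l, C.s l = l)
    (X : 𝒱.Obj) : W.H X →ₗ[W.K] M ⊗[W.K] W.H X where
  toFun a := psi W τ X (C.e X (em W L a))
  map_add' a b := by
    rw [em_add, map_add, map_add]
    rfl
  map_smul' r a := by
    have h1 : psi W τ X (C.e X (em W L (r • a))) =
        kap W τ (ex W L r) • psi W τ X (C.e X (em W L a)) := by
      rw [em_smul, C.semi, hs, psi_smul]
    have h2 : kap W τ (ex W L r) = algebraMap W.K M r := τ.commutes r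
    rw [h1, h2]
    exact algebraMap_smul M r (show M ⊗[W.K] W.H X from psi W τ X (C.e X (em W L a)))

/-- The linear extension. -/
noncomputable def extF (C : Comparison (baseW W L) (baseW W L)) (hs : ∀ l, C.s l = l)
    (X : 𝒱.Obj) (x : (baseW W M).H X) : (baseW W M).H X :=
  LinearMap.liftBaseChange M (preF τ C hs X) x

variable {τ} {C : Comparison (baseW W L) (baseW W L)} {hs : ∀ l, C.s l = l}

lemma extF_add (x y : (baseW W M).H X) :
    extF τ C hs X (x + y) = extF τ C hs X x + extF τ C hs X y :=
  map_add (LinearMap.liftBaseChange M (preF τ C hs X)) x y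

lemma extF_smul (l : (baseW W M).K) (x : (baseW W M).H X) :
    extF τ C hs X (l • x) = l • extF τ C hs X x :=
  LinearMap.map_smul (LinearMap.liftBaseChange M (preF τ C hs X)) (show M from l)
    (show M ⊗[W.K] W.H X from x)

lemma extF_zero : extF τ C hs X (0 : (baseW W M).H X) = 0 :=
  map_zero (LinearMap.liftBaseChange M (preF τ C hs X))

lemma extF_em (a : W.H X) : extF τ C hs X (em W M a) = psi W τ X (C.e X (em W L a)) := by
  have h := LinearMap.liftBaseChange_tmul M (preF τ C hs X) (1 : M) a
  exact h.trans (one_smul M _)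

lemma extF_psi (x : (baseW W L).H X) :
    extF τ C hs X (psi W τ X x) = psi W τ X (C.e X x) := by
  refine tmul_ind (p := fun x => extF τ C hs X (psi W τ X x) = psi W τ X (C.e X x)) ?_ ?_ ?_ x
  · rw [map_zero, extF_zero, map_zero, map_zero]
  · intro x y hx hy
    rw [map_add, extF_add, hx, hy, map_add, map_add]
  · intro l a
    rw [tmul_eq, psi_smul, psi_em, extF_smul, extF_em, C.semi, hs, psi_smul]

/-- Induction. -/
lemma em_ind {p : (baseW W M).H X → Prop} (h0 : p 0) (hadd : ∀ x y, p x → p y → p (x + y))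
    (h : ∀ (l : (baseW W M).K) (a : W.H X), p (l • em W M a)) (x : (baseW W M).H X) : p x :=
  tmul_ind h0 hadd (fun l a => by rw [tmul_eq]; exact h l a) x

lemma extF_mul (x y : (baseW W M).H X) :
    extF τ C hs X (x * y) = extF τ C hs X x * extF τ C hs X y := by
  refine em_ind (p := fun x => extF τ C hs X (x * y) = extF τ C hs X x * extF τ C hs X y)
    ?_ ?_ ?_ x
  · rw [zero_mul, extF_zero, zero_mul]
  · intro x z hx hz; rw [add_mul, extF_add, hx, hz, extF_add, add_mul]
  · intro l a
    refine em_ind (p := fun y => extF τ C hs X (l • em W M a * y) =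
      extF τ C hs X (l • em W M a) * extF τ C hs X y) ?_ ?_ ?_ y
    · rw [mul_zero, extF_zero, mul_zero]
    · intro x z hx hz; rw [mul_add, extF_add, hx, hz, extF_add, mul_add]
    · intro m b
      rw [smul_mul_smul_comm, ← em_mul, extF_smul, extF_smul, extF_smul, extF_em, extF_em, extF_em,
        em_mul, map_mul (C.e X), map_mul (psi W τ X), smul_mul_smul_comm]

lemma extF_gr {i : ℕ} {x : (baseW W M).H X} (hx : x ∈ (baseW W M).gr X i) :
    extF τ C hs X x ∈ (baseW W M).gr X i := by
  have hx' : x ∈ (W.gr X i).baseChange M := hx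
  refine base_induction (P := fun x : M ⊗[W.K] W.H X =>
    extF τ C hs X (show (baseW W M).H X from x) ∈ (baseW W M).gr X i) ?_ ?_ ?_ hx'
  · exact (extF_zero (τ := τ) (C := C) (hs := hs) (X := X)).symm ▸ Submodule.zero_mem _
  · intro x y hx hy
    exact (extF_add (τ := τ) (C := C) (hs := hs) (X := X) x y).symm ▸ Submodule.add_mem _ hx hy
  · intro l a ha
    rw [tmul_eq, extF_smul, extF_em]
    exact Submodule.smul_mem _ _ (psi_gr _ (C.gr.2 (em_gr ha)))

lemma extF_map (f : X ⟶ Y) (y : (baseW W M).H Y) :
    extF τ C hs X ((baseW W M).map f y) = (baseW W M).map f (extF τ C hs Y y) := by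
  refine em_ind (p := fun y => extF τ C hs X ((baseW W M).map f y) =
    (baseW W M).map f (extF τ C hs Y y)) ?_ ?_ ?_ y
  · rw [map_zero, extF_zero, extF_zero, map_zero]
  · intro x z hx hz; rw [map_add, extF_add, hx, hz, extF_add, map_add]
  · intro l a
    rw [map_smul, em_map, extF_smul, extF_smul, extF_em, extF_em, map_smul, ← em_map, C.nat,
      psi_map]

lemma extF_tr (x : (baseW W M).H X) :
    (baseW W M).tr X (extF τ C hs X x) = kap W τ C.c ^ X.dim * (baseW W M).tr X x := by
  refine em_ind (p := fun x => (baseW W M).tr X (extF τ C hs X x) =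
    kap W τ C.c ^ X.dim * (baseW W M).tr X x) ?_ ?_ ?_ x
  · rw [extF_zero, map_zero, mul_zero]
  · intro x z hx hz; rw [extF_add, map_add, hx, hz, map_add, mul_add]
  · intro l a
    rw [extF_smul, map_smul, map_smul, extF_em, psi_tr, C.tr, hs, map_mul (kap W τ),
      map_pow (kap W τ), ← psi_em τ, psi_tr, smul_eq_mul, smul_eq_mul]
    ring

variable {Γ : Type v} [Group Γ] (A : Act (baseW W L) Γ)

lemma extF_mul' (g h : Γ) (x : (baseW W M).H X) :
    extF τ (A.C g) (A.lin g) X (extF τ (A.C h) (A.lin h) X x) =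
      extF τ (A.C (g * h)) (A.lin (g * h)) X x := by
  refine em_ind (p := fun x => extF τ (A.C g) (A.lin g) X (extF τ (A.C h) (A.lin h) X x) =
      extF τ (A.C (g * h)) (A.lin (g * h)) X x) ?_ ?_ ?_ x
  · rw [extF_zero, extF_zero, extF_zero]
  · intro x z hx hz; rw [extF_add, extF_add, hx, hz, extF_add]
  · intro l a
    rw [extF_smul, extF_smul, extF_smul, extF_em, extF_em, extF_psi, A.mul]

lemma extF_one (x : (baseW W M).H X) : extF τ (A.C 1) (A.lin 1) X x = x := by
  refine em_ind (p := fun x => extF τ (A.C 1) (A.lin 1) X x = x) ?_ ?_ ?_ x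
  · rw [extF_zero]
  · intro x z hx hz; rw [extF_add, hx, hz]
  · intro l a
    rw [extF_smul, extF_em, A.one, psi_em]

variable (τ)

/-- The extension of the coefficients of the action of an element. -/
noncomputable def extC (g : Γ) : Comparison (baseW W M) (baseW W M) where
  s := RingEquiv.refl _
  c := kap W τ (A.C g).c
  ne := fun h => (A.C g).ne ((map_eq_zero (kap W τ)).1 h)
  e X :=
    { toFun := extF τ (A.C g) (A.lin g) X
      invFun := extF τ (A.C g⁻¹) (A.lin g⁻¹) X
      left_inv := fun x => by
        have h := extF_mul' (τ := τ) A g⁻¹ g x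
        rw [inv_mul_cancel, extF_one] at h
        exact h
      right_inv := fun x => by
        have h := extF_mul' (τ := τ) A g g⁻¹ x
        rw [mul_inv_cancel, extF_one] at h
        exact h
      map_mul' := extF_mul
      map_add' := extF_add }
  semi X l a := extF_smul l a
  gr {X i a} := by
    refine ⟨fun h => ?_, fun h => extF_gr h⟩
    have h1 := extF_mul' (τ := τ) A g⁻¹ g a
    rw [inv_mul_cancel, extF_one] at h1
    rw [← h1]
    exact extF_gr h
  nat f b := extF_map f b
  cyc {X j z} hz := by
    change extF τ (A.C g) (A.lin g) X (em W M (W.cl X z)) = _ • em W M (W.cl X z)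
    rw [extF_em]
    have h := (A.C g).cyc hz
    rw [em_cl] at h
    rw [h, psi_smul, psi_em, map_pow (kap W τ)]
  tr X a := extF_tr a

/-- The extension of the coefficients of an action. -/
noncomputable def Act.ext : Act (baseW W M) Γ where
  C := extC τ A
  lin _ _ := rfl
  one _ x := extF_one A x
  mul g h _ x := (extF_mul' A g h x).symm

lemma ext_psi (g : Γ) (x : (baseW W L).H X) :
    ((A.ext τ).C g).e X (psi W τ X x) = psi W τ X ((A.C g).e X x) := extF_psi x

lemma psi_injective : Function.Injective (psi W τ X) := by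
  intro x y hxy
  have h : Function.Injective (LinearMap.rTensor (W.H X) τ.toLinearMap) :=
    Module.Flat.rTensor_preserves_injective_linearMap τ.toLinearMap τ.toRingHom.injective
  have h1 : ∀ x : (baseW W L).H X, psi W τ X x = LinearMap.rTensor (W.H X) τ.toLinearMap x := by
    intro x
    refine tmul_ind (p := fun x => psi W τ X x = LinearMap.rTensor (W.H X) τ.toLinearMap x)
      ?_ ?_ ?_ x
    · rw [map_zero]
      exact (map_zero (LinearMap.rTensor (W.H X) τ.toLinearMap)).symm
    · intro x y hx hy
      rw [map_add, hx, hy]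
      exact (map_add (LinearMap.rTensor (W.H X) τ.toLinearMap) x y).symm
    · intro l a
      rw [psi_tmul]
      rfl
  apply h
  rw [← h1, ← h1, hxy]

/-- A class is fixed if its image is fixed. -/
lemma fix_of_ext {g : Γ} {j : ℕ} {x : (baseW W L).H X}
    (h : ((A.ext τ).C g).e X (psi W τ X x) = ((A.ext τ).C g).c ^ j • psi W τ X x) :
    (A.C g).e X x = (A.C g).c ^ j • x := by
  apply psi_injective τ
  rw [← ext_psi, h, psi_smul, map_pow (kap W τ)]
  rfl

end Pool.Agent.W5h89.MTZ
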