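import Pool.Agent.W5h89.MTZ.Fix
import Pool.Agent.Y133.Half.PairPred

/-!
# The zero-one law for a class of classes containing the Hodge classes
-/

open CategoryTheory AlgebraicGeometry TensorProduct Filter Topology

universe u

namespace Pool.Agent.W5h89.MTZ

open Module
open Pool.Agent.H914 Pool.Agent.H914.VarClass Pool.Agent.H914.VarClass.Obj
  Pool.Agent.H914.WeilCohomology
open Pool.Agent.Y133.Half Pool.Agent.Y121.AH

variable {k : Type u} [Field k] {𝒱 : VarClass k} {ops : CycleOps 𝒱} {T : HodgeTheory ops}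
  {L : Type} [Field L] [Algebra T.W.K L] {X Y : 𝒱.Obj}

/-- The change of the coefficients as a realisation. -/
noncomputable def psiR (T : HodgeTheory ops) {L : Type} [Field L] [Algebra T.W.K L]
    (τ : L →+* ℂ) : Rlz (baseW T.W L) (CW T) where
  s := kap T.W (ratAlg T τ)
  c := 1
  ne := one_ne_zero
  E X := psi T.W (ratAlg T τ) X
  semi X r a := psi_smul _ r a
  gr h := psi_gr _ h
  nat f b := psi_map _ f b
  push f a := by rw [one_pow, one_pow, one_smul, one_smul, psi_push]

lemma psiR_E (τ : L →+* ℂ) (x : (baseW T.W L).H X) :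
    (psiR T τ).E X x = psi T.W (ratAlg T τ) X x := rfl

/-- The linear combinations of Hodge classes are fixed. -/
lemma base_fix (τ : L →+* ℂ) (X : 𝒱.Obj) (x : (baseW T.W L).H X)
    (hx : x ∈ ((hodgeSys T).base L).C X) :
    gop T X ((psiR T τ).E X x) = (psiR T τ).E X x := by
  have hx' : x ∈ ((hodgeSys T).C X).baseChange L := hx
  refine base_induction (P := fun x : L ⊗[T.W.K] T.W.H X =>
    gop T X ((psiR T τ).E X (show (baseW T.W L).H X from x)) =
      (psiR T τ).E X (show (baseW T.W L).H X from x)) ?_ ?_ ?_ hx'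
  · have h0 : (psiR T τ).E X (show (baseW T.W L).H X from (0 : L ⊗[T.W.K] T.W.H X)) = 0 :=
      map_zero _
    rw [h0, map_zero]
  · intro x y hx hy
    have h0 : (psiR T τ).E X (show (baseW T.W L).H X from (x + y : L ⊗[T.W.K] T.W.H X)) =
      (psiR T τ).E X (show (baseW T.W L).H X from x) +
        (psiR T τ).E X (show (baseW T.W L).H X from y) := map_add _ _ _
    rw [h0, map_add, hx, hy]
  · intro l a ha
    rw [tmul_eq, psiR_E, psi_smul, psi_em, map_smul]
    congr 1
    have ha' : a ∈ (hodgePred T).sp X := ha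
    refine ClassPred.sp_ind (Q := hodgePred T)
      (q := fun x => gop T X (em T.W ℂ x) = em T.W ℂ x) ?_ ?_ ?_ ha'
    · intro j x hx
      exact gop_hodge hx
    · rw [em_zero, map_zero]
    · intro x y hx hy
      rw [em_add, map_add, hx, hy]

/-- The span of the Hodge classes. -/
lemma base_le_of {R : ClassPred (baseW T.W L)}
    (hR : ∀ (X : 𝒱.Obj) (j : ℕ) (c : T.W.H X), IsHodge T X j c → R.P X j (em T.W L c))
    (X : 𝒱.Obj) : ((hodgeSys T).base L).C X ≤ R.sys.C X := by
  intro x hx
  have hx' : x ∈ ((hodgeSys T).C X).baseChange L := hx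
  refine base_induction (P := fun x : L ⊗[T.W.K] T.W.H X =>
    (show (baseW T.W L).H X from x) ∈ R.sys.C X) ?_ ?_ ?_ hx'
  · exact Submodule.zero_mem _
  · intro x y hx hy
    exact Submodule.add_mem _ hx hy
  · intro l a ha
    rw [tmul_eq]
    refine Submodule.smul_mem _ _ ?_
    have ha' : a ∈ (hodgePred T).sp X := ha
    refine ClassPred.sp_ind (Q := hodgePred T)
      (q := fun x => em T.W L x ∈ R.sys.C X) ?_ ?_ ?_ ha'
    · intro j x hx
      exact ClassPred.sp_of (Q := R) (hR X j x hx)
    · rw [em_zero]; exact Submodule.zero_mem _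
    · intro x y hx hy
      rw [em_add]; exact Submodule.add_mem _ hx hy

lemma base_a (X : 𝒱.Obj) : ((hodgeSys T).base L).a X = hodgeDim T X := by
  have h1 : (hodgeSys T).Nondeg X := fun x hx hxy => hodge_nondeg hx hxy
  have h2 := Sys.nondeg_iff.1 (h1.base L)
  rw [h2, Sys.finrank_base]
  rfl

lemma ratio_zero {a t : ℕ → ℕ}
    (h : ∀ N : ℕ, ∃ n₀ : ℕ, ∀ n ≥ n₀, N * a n ≤ t n) :
    Tendsto (fun n => (a n : ℝ) / t n) atTop (𝓝 0) := by
  rw [Metric.tendsto_atTop]
  intro ε hε
  obtain ⟨N, hN⟩ := exists_nat_gt (1 / ε)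
  obtain ⟨n₀, hn₀⟩ := h N
  refine ⟨n₀, fun n hn => ?_⟩
  have h1 := hn₀ n hn
  have h2 : (0 : ℝ) ≤ (a n : ℝ) / t n := by positivity
  rw [Real.dist_eq, sub_zero, abs_of_nonneg h2]
  rcases Nat.eq_zero_or_pos (t n) with h3 | h3
  · rw [h3, Nat.cast_zero, div_zero]; exact hε
  · have h4 : (0 : ℝ) < t n := by exact_mod_cast h3
    rw [div_lt_iff₀ h4]
    have h5 : (N : ℝ) * a n ≤ t n := by exact_mod_cast h1
    have h6 : 1 < ε * N := by
      rw [div_lt_iff₀ hε] at hN
      linarith
    have h7 : (0 : ℝ) ≤ a n := Nat.cast_nonneg _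
    rcases h7.eq_or_lt with h8 | h8
    · rw [← h8]; positivity
    · nlinarith [mul_lt_mul_of_pos_right h6 h8, mul_le_mul_of_nonneg_left h5 hε.le]

lemma trivial_pw {W : WeilCohomology.{u, 0} ops} [Subsingleton (W.H X)] (n : ℕ) :
    Subsingleton (W.H (pw X n)) := by
  have h1 : (1 : W.H X) = 0 := Subsingleton.elim _ _
  have key : ∀ n, (1 : W.H (pw X n)) = 0 := by
    intro n
    induction n with
    | zero => exact h1
    | succ n ih =>
      have h2 := map_one (W.map (fst (pw X n) X))
      rw [ih, map_zero] at h2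
      exact h2.symm
  exact subsingleton_of_zero_eq_one (key n).symm

/-- **The zero-one law.** Let `R` be a class of cohomology classes with coefficients in the subfield
`L` of `ℂ`, stable under all operations, which contains the Hodge classes. Either all classes
with the property `R` on the powers of `X` are linear combinations of Hodge classes, or the
Hodge classes have density zero. -/
theorem zero_one (τ : L →+* ℂ) (R : ClassPred (baseW T.W L))
    (hR : ∀ (X : 𝒱.Obj) (j : ℕ) (c : T.W.H X), IsHodge T X j c → R.P X j (em T.W L c))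
    (X : 𝒱.Obj) :
    (∀ n j x, R.P (pw X n) j x → x ∈ Submodule.span (baseW T.W L).K
        {y | ∃ c, IsHodge T (pw X n) j c ∧ em T.W L c = y}) ∨
      Tendsto (fun n => (hodgeDim T (pw X n) : ℝ) / dimBy (baseW T.W L) R.P (pw X n)) atTop
        (𝓝 0) := by
  rcases subsingleton_or_nontrivial (T.W.H X) with hs | hn
  · left
    intro n j x _
    have h1 : Subsingleton (T.W.H (pw X n)) := trivial_pw n
    have h2 : ∀ x : (baseW T.W L).H (pw X n), x = 0 := by
      intro x
      refine tmul_ind (p := fun x => x = 0) rfl ?_ ?_ x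
      · rintro x y rfl rfl; rw [add_zero]
      · intro l a
        rw [tmul_eq, Subsingleton.elim a 0, em_zero, smul_zero]
    rw [h2 x]
    exact Submodule.zero_mem _
  obtain ⟨l, hl, hl1⟩ := exists_tr_hodge T X
  have hl2 : em T.W L l ∈ ((hodgeSys T).base L).C X :=
    Submodule.tmul_mem_baseChange_of_mem (1 : L) (ClassPred.sp_of (Q := hodgePred T) hl)
  have hl3 : (baseW T.W L).tr X (em T.W L l) = 1 := by
    rw [em_tr, hl1]; exact map_one (algebraMap T.W.K L)
  rcases growth_or ((hodgeSys T).base L) R.sys (base_le_of hR) X hl2 hl3 with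
    ⟨m, P, -, hP⟩ | h
  · left
    intro n j x hx
    refine mem_span_hodge τ fun g => ?_
    have h1 := fix_of_genBy (psiR T (g.toRingHom.comp τ)) hP (base_fix _)
      (R.gr hx) (ClassPred.sp_of (Q := R) hx)
    exact pq_of_fix' ((psiR T (g.toRingHom.comp τ)).gr (R.gr hx)) h1
  · right
    refine ratio_zero fun N => ?_
    obtain ⟨n₀, hn₀⟩ := h N
    refine ⟨n₀, fun n hn => ?_⟩
    have h1 := hn₀ n hn
    rw [base_a] at h1
    exact h1

end Pool.Agent.W5h89.MTZ
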