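import Pool.Agent.W5h89.MTZ.BC
import Pool.Agent.W5h89.MTZ.Main

/-!
# Hodge classes which are Tate classes
-/

open CategoryTheory AlgebraicGeometry TensorProduct Filter Topology

universe u v

namespace Pool.Agent.W5h89.MTZ

open Module
open Pool.Agent.H914 Pool.Agent.H914.VarClass Pool.Agent.H914.VarClass.Obj
  Pool.Agent.H914.WeilCohomology
open Pool.Agent.Y133.Half Pool.Agent.Y121.AH

variable {k : Type u} [Field k] {𝒱 : VarClass k} {ops : CycleOps 𝒱} {T : HodgeTheory ops}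
  {L : Type} [Field L] [Algebra T.W.K L] {Γ : Type v} [Group Γ] {X Y Z P : 𝒱.Obj}

/-- The extension of the coefficients as a realisation. -/
noncomputable def emR (W : WeilCohomology.{u, 0} ops) (L : Type) [Field L] [Algebra W.K L] :
    Rlz W (baseW W L) where
  s := algebraMap W.K L
  c := 1
  ne := one_ne_zero
  E X := (Algebra.TensorProduct.includeRight : W.H X →ₐ[W.K] L ⊗[W.K] W.H X).toRingHom
  semi X r a := em_smul r a
  gr h := em_gr h
  nat f b := (em_map f b).symm
  push f a := by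
    rw [one_pow, one_pow, one_smul, one_smul]
    exact (em_push f a).symm

lemma emR_E {W : WeilCohomology.{u, 0} ops} {L : Type} [Field L] [Algebra W.K L] (a : W.H X) :
    (emR W L).E X a = em W L a := rfl

/-- The classes which are fixed by subgroups of finite index. -/
noncomputable def tPred (A : Act (baseW T.W L) Γ) : ClassPred (baseW T.W L) where
  P X j x := x ∈ (baseW T.W L).gr X (2 * j) ∧ ∃ Δ : Subgroup Γ, Δ.FiniteIndex ∧
    ∀ g ∈ Δ, (A.C g).e X x = (A.C g).c ^ j • x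
  gr h := h.1
  zero {X j} := ⟨Submodule.zero_mem _, ⊤, inferInstance, fun g _ => by rw [map_zero, smul_zero]⟩
  add := by
    rintro X j a b ⟨ha, Δ, hΔ, h1⟩ ⟨hb, Δ', hΔ', h2⟩
    refine ⟨Submodule.add_mem _ ha hb, Δ ⊓ Δ', inferInstance, fun g hg => ?_⟩
    rw [map_add, h1 g hg.1, h2 g hg.2, smul_add]
  smul := by
    rintro X j r a ⟨ha, Δ, hΔ, h1⟩
    refine ⟨Submodule.smul_mem _ _ ha, Δ, hΔ, fun g hg => ?_⟩
    rw [(A.C g).semi, A.lin, h1 g hg, smul_comm]
  cl := by
    intro X j z hz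
    refine ⟨(baseW T.W L).cl_mem hz, ⊤, inferInstance, fun g _ => (A.C g).cyc hz⟩
  mul := by
    rintro X i j a b ⟨ha, Δ, hΔ, h1⟩ ⟨hb, Δ', hΔ', h2⟩
    refine ⟨by rw [mul_add]; exact (baseW T.W L).mul_mem ha hb, Δ ⊓ Δ', inferInstance,
      fun g hg => ?_⟩
    rw [map_mul (((A.C g).e X)), h1 g hg.1, h2 g hg.2, smul_mul_smul_comm, pow_add]
  map := by
    rintro X Y f j a ⟨ha, Δ, hΔ, h1⟩
    refine ⟨(baseW T.W L).map_mem f ha, Δ, hΔ, fun g hg => ?_⟩
    rw [(A.C g).nat, h1 g hg, map_smul]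
  push := by
    rintro X Y f j l hl a ⟨ha, Δ, hΔ, h1⟩
    refine ⟨push_gr f hl ha, Δ, hΔ, fun g hg => ?_⟩
    have h2 := (A.C g).push f a
    rw [h1 g hg, map_smul, smul_smul, ← pow_add] at h2
    have h3 : (A.C g).c ^ X.dim ≠ 0 := pow_ne_zero _ (A.C g).ne
    have h4 : (A.C g).c ^ X.dim • (A.C g).e Y ((baseW T.W L).push f a) =
        (A.C g).c ^ X.dim • ((A.C g).c ^ l • (baseW T.W L).push f a) := by
      rw [h2, smul_smul, ← pow_add]
      congr 2
      omega
    exact smul_right_injective _ h3 h4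

/-- The Hodge classes which are fixed by subgroups of finite index. -/
noncomputable def cPred (A : Act (baseW T.W L) Γ) : ClassPred T.W where
  P X j c := IsHodge T X j c ∧ (tPred A).P X j (em T.W L c)
  gr h := h.1.1
  zero {X j} := ⟨(hodgePred T).zero, by rw [em_zero]; exact (tPred A).zero⟩
  add h1 h2 := ⟨(hodgePred T).add h1.1 h2.1, by rw [em_add]; exact (tPred A).add h1.2 h2.2⟩
  smul := by
    rintro X j r a h
    exact ⟨(hodgePred T).smul r h.1, by rw [em_smul]; exact (tPred A).smul _ h.2⟩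
  cl h := ⟨(hodgePred T).cl h, by rw [← em_cl]; exact (tPred A).cl h⟩
  mul h1 h2 := ⟨(hodgePred T).mul h1.1 h2.1, by rw [em_mul]; exact (tPred A).mul h1.2 h2.2⟩
  map := by
    rintro X Y f j a h
    exact ⟨(hodgePred T).map f h.1, by rw [← em_map]; exact (tPred A).map f h.2⟩
  push := by
    rintro X Y f j l hl a h
    exact ⟨(hodgePred T).push f hl h.1, by rw [← em_push]; exact (tPred A).push f hl h.2⟩

/-- The Lefschetz isomorphisms. -/
lemma lifts_cPred (A : Act (baseW T.W L) Γ) : Lifts T (cPred A) := by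
  intro X D hD j hj v hv
  obtain ⟨x, hx, hxv⟩ := lifts_hodge T X D hD j hj v hv.1
  refine ⟨x, ⟨hx, em_gr hx.1, ?_⟩, hxv⟩
  obtain ⟨-, -, Δ, hΔ, h1⟩ := hv
  refine ⟨Δ, hΔ, fun g hg => ?_⟩
  set C := A.C g with hC
  set w : T.W.H X := T.W.cl X D ^ (X.dim - 2 * j) with hw
  have hcl : C.e X (em T.W L w) = C.c ^ (X.dim - 2 * j) • em T.W L w := by
    have h2 := C.pow_cl hD.1 (X.dim - 2 * j)
    have h3 : (baseW T.W L).cl X D ^ (X.dim - 2 * j) = em T.W L w := by
      rw [hw, em_pow]; rfl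
    rw [h3] at h2
    exact h2
  rw [← sub_eq_zero]
  refine mul_inj_base (w := w) (i := 2 * j) (fun y hy h => hl_inj hD.2.1 hj hy h) ?_ ?_
  · exact Submodule.sub_mem _ (C.gr.2 (em_gr hx.1)) (Submodule.smul_mem _ _ (em_gr hx.1))
  · have hne : C.c ^ (X.dim - 2 * j) ≠ 0 := pow_ne_zero _ C.ne
    apply smul_right_injective _ hne
    beta_reduce
    rw [smul_zero, mul_sub, smul_sub, ← smul_mul_assoc, ← hcl, ← map_mul (C.e X), ← em_mul, hxv,
      h1 g hg, mul_smul_comm, ← em_mul, hxv, smul_smul, ← pow_add]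
    rw [show X.dim - 2 * j + j = X.dim - j by omega, sub_self]

lemma cPred_nondeg (A : Act (baseW T.W L) Γ) (X : 𝒱.Obj) : (cPred A).sys.Nondeg X := fun _ hx hxy =>
  q_nondeg_sys (Q := cPred A) (fun h => h.1) (lifts_cPred A) hx hxy

/-- There is a class of degree one. -/
lemma exists_tr_cPred (A : Act (baseW T.W L) Γ) (X : 𝒱.Obj) [Nontrivial (T.W.H X)] :
    ∃ l, (cPred A).P X X.dim l ∧ T.W.tr X l = 1 := by
  obtain ⟨E, hE⟩ := T.dec.polar X
  have h1 : (1 : T.W.H X) ∈ T.W.gr X (2 * 0) := T.W.one_mem X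
  have h2 : IsHodge T X 0 (1 : T.W.H X) := by
    rw [← T.W.cl_fund X]; exact IsHodge.cl X.V.fundCycle_mem
  have h3 : T.W.cl X E ^ (X.dim - 2 * 0 + 1) * (1 : T.W.H X) = 0 := by
    have h4 := ((IsHodge.cl (T := T) hE.1).pow (X.dim - 2 * 0 + 1)).1
    rw [T.W.gr_eq_bot X _ (by omega)] at h4
    rw [(Submodule.mem_bot _).1 h4, zero_mul]
  obtain ⟨r, hr, h4⟩ := hE.2.2 0 (by omega) 1 h1 h2.2 h3 one_ne_zero
  have h5 : (cPred A).P X X.dim (T.W.cl X E ^ (X.dim - 2 * 0) * 1 * 1) := by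
    rw [mul_one, mul_one]
    have := q_pow (Q := cPred A) ((cPred A).cl hE.1) (X.dim - 2 * 0)
    rwa [one_mul] at this
  rw [pow_zero, one_mul] at h4
  have hr0 : (r : T.W.K) ≠ 0 := by exact_mod_cast hr.ne'
  refine ⟨(r : T.W.K)⁻¹ • _, (cPred A).smul _ h5, ?_⟩
  rw [map_smul, h4, smul_eq_mul, inv_mul_cancel₀ hr0]

lemma cPred_le (A : Act (baseW T.W L) Γ) (X : 𝒱.Obj) : (cPred A).sys.C X ≤ (hodgeSys T).C X := by
  intro x hx
  refine ClassPred.sp_ind (Q := cPred A) (q := fun x => x ∈ (hodgePred T).sp X) ?_ ?_ ?_ hx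
  · intro j x hx
    exact ClassPred.sp_of (Q := hodgePred T) hx.1
  · exact Submodule.zero_mem _
  · intro x y hx hy
    exact Submodule.add_mem _ hx hy

lemma cPred_base_le (A : Act (baseW T.W L) Γ) (X : 𝒱.Obj) :
    ((cPred A).sys.base L).C X ≤ ((hodgeSys T).base L).C X :=
  Submodule.baseChange_mono L (cPred_le A X)

lemma cPred_base_le' (A : Act (baseW T.W L) Γ) (X : 𝒱.Obj) :
    ((cPred A).sys.base L).C X ≤ (tPred A).sys.C X := by
  intro x hx
  have hx' : x ∈ ((cPred A).sys.C X).baseChange L := hx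
  refine base_induction (P := fun x : L ⊗[T.W.K] T.W.H X =>
    (show (baseW T.W L).H X from x) ∈ (tPred A).sys.C X) ?_ ?_ ?_ hx'
  · exact Submodule.zero_mem _
  · intro x y hx hy
    exact Submodule.add_mem _ hx hy
  · intro l a ha
    rw [tmul_eq]
    refine Submodule.smul_mem _ _ ?_
    have ha' : a ∈ (cPred A).sp X := ha
    refine ClassPred.sp_ind (Q := cPred A)
      (q := fun x => em T.W L x ∈ (tPred A).sys.C X) ?_ ?_ ?_ ha'
    · intro j x hx
      exact ClassPred.sp_of (Q := tPred A) hx.2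
    · rw [em_zero]; exact Submodule.zero_mem _
    · intro x y hx hy
      rw [em_add]; exact Submodule.add_mem _ hx hy

lemma cPred_base_a (A : Act (baseW T.W L) Γ) (X : 𝒱.Obj) :
    ((cPred A).sys.base L).a X = dimBy T.W (cPred A).P X := by
  have h2 := Sys.nondeg_iff.1 ((cPred_nondeg A X).base L)
  rw [h2, Sys.finrank_base]
  rfl

lemma cPred_a (A : Act (baseW T.W L) Γ) (X : 𝒱.Obj) :
    (cPred A).sys.a X = dimBy T.W (cPred A).P X := by
  have h2 := Sys.nondeg_iff.1 (cPred_nondeg A X)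
  rw [h2]
  rfl

/-- For each variety there is a subgroup of finite index which fixes all classes. -/
lemma exists_fix_all (A : Act (baseW T.W L) Γ) (Y : 𝒱.Obj) : ∃ Δ : Subgroup Γ, Δ.FiniteIndex ∧
    ∀ g ∈ Δ, ∀ x ∈ (cPred A).sys.C Y, nop (A.C g) (A.lin g) Y (em T.W L x) = em T.W L x := by
  classical
  obtain ⟨s, hs, hspan⟩ := (Submodule.fg_span_iff_fg_span_finset_subset
    {c | ∃ j, (cPred A).P Y j c}).1 (IsNoetherian.noetherian
      (Submodule.span T.W.K {c | ∃ j, (cPred A).P Y j c}))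
  have key : ∀ s : Finset (T.W.H Y), (∀ c ∈ s, ∃ j, (cPred A).P Y j c) →
      ∃ Δ : Subgroup Γ, Δ.FiniteIndex ∧ ∀ g ∈ Δ, ∀ c ∈ s,
        nop (A.C g) (A.lin g) Y (em T.W L c) = em T.W L c := by
    intro s
    induction s using Finset.induction_on with
    | empty => exact fun _ => ⟨⊤, inferInstance, fun g _ c hc => absurd hc (Finset.notMem_empty c)⟩
    | insert a s _ ih =>
      intro h
      obtain ⟨Δ, hΔ, h1⟩ := ih fun c hc => h c (Finset.mem_insert_of_mem hc)
      obtain ⟨j, hj⟩ := h a (Finset.mem_insert_self a s)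
      obtain ⟨h2, Δ', hΔ', h3⟩ := hj.2
      refine ⟨Δ ⊓ Δ', inferInstance, fun g hg c hc => ?_⟩
      rcases Finset.mem_insert.1 hc with rfl | hc
      · exact (nop_eq_iff h2).2 (h3 g hg.2)
      · exact h1 g hg.1 c hc
  obtain ⟨Δ, hΔ, h1⟩ := key s fun c hc => hs hc
  refine ⟨Δ, hΔ, fun g hg x hx => ?_⟩
  have hx' : x ∈ Submodule.span T.W.K {c | ∃ j, (cPred A).P Y j c} := hx
  clear hx
  rw [hspan] at hx'
  induction hx' using Submodule.span_induction with
  | mem x hx => exact h1 g hg x hx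
  | zero => rw [em_zero, map_zero]
  | add x y _ _ hx hy => rw [em_add, map_add, hx, hy]
  | smul r x _ hx => rw [em_smul, map_smul, hx]

/-- **Descent.** If all conjugates of a class are in the subspace `B`, then it is a linear
combination of rational classes in `B`. -/
lemma mem_span_desc (τ : L →+* ℂ) {w : (baseW T.W L).H X}
    {B : Submodule (CW T).K ((CW T).H X)}
    (h : ∀ g : ℂ ≃+* ℂ, psi T.W (ratAlg T (g.toRingHom.comp τ)) X w ∈ B) :
    w ∈ Submodule.span (baseW T.W L).K {x | ∃ c, em T.W ℂ c ∈ B ∧ em T.W L c = x} := by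
  classical
  let b := Basis.ofVectorSpace T.W.K L
  have hw0 : ∃ f : (Basis.ofVectorSpaceIndex T.W.K L) →₀ T.W.H X,
      (f.sum fun i m => b i ⊗ₜ[T.W.K] m) = (w : L ⊗[T.W.K] T.W.H X) :=
    TensorProduct.eq_repr_basis_left b w
  obtain ⟨f, hf⟩ := hw0
  have hf' : w = ∑ i ∈ f.support, (show (baseW T.W L).K from b i) • em T.W L (f i) := by
    rw [← hf, Finsupp.sum]
    exact Finset.sum_congr rfl fun i _ => tmul_eq (W := T.W) (b i) (f i)
  have key : ∀ i ∈ f.support, em T.W ℂ (f i) ∈ B := by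
    intro i hi
    by_contra hc
    obtain ⟨φ, hφ, hφp⟩ := Submodule.exists_dual_map_eq_bot_of_notMem hc inferInstance
    apply hφ
    refine aut_indep (indep_basis b τ) _ f.support rfl (fun i => φ (em T.W ℂ (f i))) ?_ i hi
    intro g
    have h1 : φ (psi T.W (ratAlg T (g.toRingHom.comp τ)) X w) = 0 := by
      have h2 := Submodule.mem_map_of_mem (f := φ) (h g)
      rw [hφp, Submodule.mem_bot] at h2
      exact h2
    rw [hf', map_sum, map_sum] at h1
    refine Eq.trans (Finset.sum_congr rfl fun i _ => ?_) h1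
    have h3 : φ (psi T.W (ratAlg T (g.toRingHom.comp τ)) X
        ((show (baseW T.W L).K from b i) • em T.W L (f i))) =
        kap T.W (ratAlg T (g.toRingHom.comp τ)) (show (baseW T.W L).K from b i) *
          φ (em T.W ℂ (f i)) := by
      rw [psi_smul, psi_em, map_smul, smul_eq_mul]
    refine Eq.trans ?_ h3.symm
    exact mul_comm (φ (em T.W ℂ (f i)) : ℂ) (g (τ (b i)))
  rw [hf']
  exact Submodule.sum_mem _ fun i hi => Submodule.smul_mem _ _ (Submodule.subset_span ⟨_, key i hi, rfl⟩)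

/-- A divisor which is not zero. -/
lemma exists_div {j : ℕ} (hj : 0 < j) (h : ∃ c ∈ T.W.gr X (2 * j), c ≠ 0) :
    ∃ D : X.Cycles, X.IsCyc 1 D ∧ T.W.cl X D ≠ 0 := by
  obtain ⟨c, hc, hc0⟩ := h
  obtain ⟨D, hD⟩ := T.dec.polar X
  have hdim : 1 ≤ X.dim := by
    by_contra hlt
    apply hc0
    rw [T.W.gr_eq_bot _ _ (by omega)] at hc
    exact (Submodule.mem_bot _).1 hc
  have hne : (1 : T.W.H X) ≠ 0 := by
    intro h1
    apply hc0
    rw [← one_mul c, h1, zero_mul]
  refine ⟨D, hD.1, fun h1 => hne ?_⟩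
  refine hl_inj hD.2.1 (Nat.zero_le _) (T.W.one_mem _) ?_
  rw [h1, Nat.sub_zero, zero_pow (by omega), zero_mul]

/-- The degree zero. -/
lemma cPred_one (A : Act (baseW T.W L) Γ) (X : 𝒱.Obj) : (cPred A).P X 0 (1 : T.W.H X) := by
  rw [← T.W.cl_fund X]
  exact (cPred A).cl X.V.fundCycle_mem

/-- The classes of type `(j, j)` which are fixed by subgroups of finite index, after extension of the
coefficients. -/
noncomputable def fixB (A : Act (baseW T.W L) Γ) (τ : L →+* ℂ) (X : 𝒱.Obj) (j : ℕ) :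
    Submodule (CW T).K ((CW T).H X) where
  carrier := {y | y ∈ T.pq X j j ∧ (tPred (T := T) (L := ℂ) (A.ext (ratAlg T τ))).P X j y}
  add_mem' h1 h2 := ⟨Submodule.add_mem _ h1.1 h2.1, (tPred (A.ext (ratAlg T τ))).add h1.2 h2.2⟩
  zero_mem' := ⟨Submodule.zero_mem _, (tPred (A.ext (ratAlg T τ))).zero⟩
  smul_mem' r _ h := ⟨Submodule.smul_mem _ _ h.1, (tPred (A.ext (ratAlg T τ))).smul r h.2⟩

lemma cPred_of_fixB {A : Act (baseW T.W L) Γ} {τ : L →+* ℂ} {j : ℕ} {c : T.W.H X}
    (h : em T.W ℂ c ∈ fixB A τ X j) : (cPred A).P X j c := by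
  obtain ⟨h1, h2, Δ, hΔ, h3⟩ := h
  have hgr : c ∈ T.W.gr X (2 * j) := mem_of_em_mem h2
  refine ⟨⟨hgr, h1⟩, em_gr hgr, Δ, hΔ, fun g hg => ?_⟩
  apply fix_of_ext (ratAlg T τ) A
  rw [psi_em]
  exact h3 g hg

/-- For each variety there is a subgroup of finite index which fixes all classes, after extension of
the coefficients. -/
lemma exists_fix_ext (A : Act (baseW T.W L) Γ) (τ τ' : L →+* ℂ) (Y : 𝒱.Obj) :
    ∃ Δ : Subgroup Γ, Δ.FiniteIndex ∧ ∀ g ∈ Δ, ∀ x ∈ ((cPred A).sys.base L).C Y,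
      nop ((A.ext (ratAlg T τ)).C g) ((A.ext (ratAlg T τ)).lin g) Y ((psiR T τ').E Y x) =
        (psiR T τ').E Y x := by
  obtain ⟨Δ, hΔ, h⟩ := exists_fix_all A Y
  refine ⟨Δ, hΔ, fun g hg x hx => ?_⟩
  have hx' : x ∈ ((cPred A).sys.C Y).baseChange L := hx
  refine base_induction (P := fun x : L ⊗[T.W.K] T.W.H Y =>
    nop ((A.ext (ratAlg T τ)).C g) ((A.ext (ratAlg T τ)).lin g) Y
      ((psiR T τ').E Y (show (baseW T.W L).H Y from x)) =
        (psiR T τ').E Y (show (baseW T.W L).H Y from x)) ?_ ?_ ?_ hx'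
  · have h0 : (psiR T τ').E Y (show (baseW T.W L).H Y from (0 : L ⊗[T.W.K] T.W.H Y)) = 0 :=
      map_zero _
    rw [h0, map_zero]
  · intro x y hx hy
    have h0 : (psiR T τ').E Y (show (baseW T.W L).H Y from (x + y : L ⊗[T.W.K] T.W.H Y)) =
      (psiR T τ').E Y (show (baseW T.W L).H Y from x) +
        (psiR T τ').E Y (show (baseW T.W L).H Y from y) := map_add _ _ _
    rw [h0, map_add, hx, hy]
  · intro l a ha
    rw [tmul_eq, psiR_E, psi_smul, psi_em, map_smul]
    congr 1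
    have ha' : a ∈ (cPred A).sp Y := ha
    refine ClassPred.sp_ind (Q := cPred A)
      (q := fun x => nop ((A.ext (ratAlg T τ)).C g) ((A.ext (ratAlg T τ)).lin g) Y
        (em T.W ℂ x) = em T.W ℂ x) ?_ ?_ ?_ ha'
    · intro j x hx
      have h1 := h g hg x (ClassPred.sp_of (Q := cPred A) hx)
      rw [nop_eq_iff (em_gr hx.1.1)] at h1
      rw [nop_eq_iff (em_gr hx.1.1), ← psi_em (ratAlg T τ), ext_psi, h1, psi_smul,
        map_pow (kap T.W (ratAlg T τ))]
      rfl
    · rw [em_zero, map_zero]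
    · intro x y hx hy
      rw [em_add, map_add, hx, hy]

/-- **The law for the Tate classes.** -/
theorem law_tate (τ : L →+* ℂ) (A : Act (baseW T.W L) Γ) (X : 𝒱.Obj) :
    (∀ n j x, (tPred A).P (pw X n) j x → x ∈ Submodule.span (baseW T.W L).K
        {y | ∃ c, (cPred A).P (pw X n) j c ∧ em T.W L c = y}) ∨
      Tendsto (fun n => (dimBy T.W (cPred A).P (pw X n) : ℝ) /
        dimBy (baseW T.W L) (tPred A).P (pw X n)) atTop (𝓝 0) := by
  rcases subsingleton_or_nontrivial (T.W.H X) with hs | hn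
  · left
    intro n j x _
    have h1 : Subsingleton (T.W.H (pw X n)) := trivial_pw n
    have h2 : ∀ x : (baseW T.W L).H (pw X n), x = 0 := by
      intro x
      refine tmul_ind (p := fun x => x = 0) rfl ?_ ?_ x
      · rintro x y rfl rfl; rw [add_zero]
      · intro l a
        rw [tmul_eq, Subsingleton.elim a 0, em_zero, smul_zero]
    rw [h2 x]
    exact Submodule.zero_mem _
  obtain ⟨l, hl, hl1⟩ := exists_tr_cPred A X
  have hl2 : em T.W L l ∈ ((cPred A).sys.base L).C X :=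
    Submodule.tmul_mem_baseChange_of_mem (1 : L) (ClassPred.sp_of (Q := cPred A) hl)
  have hl3 : (baseW T.W L).tr X (em T.W L l) = 1 := by
    rw [em_tr, hl1]; exact map_one (algebraMap T.W.K L)
  rcases growth_or ((cPred A).sys.base L) (tPred A).sys (cPred_base_le' A) X hl2 hl3 with
    ⟨m, P, -, hP⟩ | h
  · left
    intro n j x hx
    by_cases hx0 : x = 0
    · rw [hx0]; exact Submodule.zero_mem _
    rcases Nat.eq_zero_or_pos j with hj | hj
    · subst hj
      have h1 : x ∈ Submodule.span (baseW T.W L).K {(1 : (baseW T.W L).H (pw X n))} := by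
        rw [← (baseW T.W L).gr_zero]; exact hx.1
      obtain ⟨r, rfl⟩ := Submodule.mem_span_singleton.1 h1
      exact Submodule.smul_mem _ _ (Submodule.subset_span ⟨1, cPred_one A _, rfl⟩)
    · have hex : ∃ c ∈ T.W.gr (pw X n) (2 * j), c ≠ 0 := by
        by_contra hcon
        push Not at hcon
        apply hx0
        have h1 : x ∈ (T.W.gr (pw X n) (2 * j)).baseChange L := hx.1
        refine base_induction (P := fun x : L ⊗[T.W.K] T.W.H (pw X n) =>
          (show (baseW T.W L).H (pw X n) from x) = 0) rfl ?_ ?_ h1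
        · intro x y hx hy
          have h2 : (show (baseW T.W L).H (pw X n) from x) +
            (show (baseW T.W L).H (pw X n) from y) = 0 := by rw [hx, hy, add_zero]
          exact h2
        · intro l a ha
          rw [tmul_eq, hcon a ha, em_zero, smul_zero]
      obtain ⟨D, hD, hD0⟩ := exists_div hj hex
      have hD1 : (CW T).cl (pw X n) D ≠ 0 := by
        rw [em_cl]
        exact fun h => hD0 (em_injective h)
      have hchar : CharZero (CW T).K := inferInstanceAs (CharZero ℂ)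
      have h0 := mem_span_desc (X := pw X n) τ (w := x) (B := fixB A τ (pw X n) j) (by
        intro g
        refine ⟨?_, ?_⟩
        · have h1 := fix_of_genBy (psiR T (g.toRingHom.comp τ)) hP
            (fun X x hx => base_fix _ X x (cPred_base_le A X hx))
            ((tPred A).gr hx) (ClassPred.sp_of (Q := tPred A) hx)
          exact pq_of_fix' ((psiR T (g.toRingHom.comp τ)).gr ((tPred A).gr hx)) h1
        · obtain ⟨Δ, hΔ, h1⟩ := tate_of_genBy (psiR T (g.toRingHom.comp τ)) (A.ext (ratAlg T τ))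
            ((A.ext (ratAlg T τ)).c_one hD hD1) ((A.ext (ratAlg T τ)).c_mul hD hD1)
            (exists_fix_ext A τ (g.toRingHom.comp τ)) hP ((tPred A).gr hx)
            (ClassPred.sp_of (Q := tPred A) hx)
          have h2 : psi T.W (ratAlg T (g.toRingHom.comp τ)) (pw X n) x ∈
              (CW T).gr (pw X n) (2 * j) := psi_gr _ ((tPred A).gr hx)
          exact ⟨h2, Δ, hΔ, fun γ hγ => (nop_eq_iff h2).1 (h1 γ hγ)⟩)
      refine Submodule.span_mono ?_ h0
      rintro y ⟨c, hc, rfl⟩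
      exact ⟨c, cPred_of_fixB hc, rfl⟩
  · right
    refine ratio_zero fun N => ?_
    obtain ⟨n₀, hn₀⟩ := h N
    refine ⟨n₀, fun n hn => ?_⟩
    have h1 := hn₀ n hn
    rw [cPred_base_a] at h1
    exact h1

/-- **The law for the Hodge classes.** -/
theorem law_hodge [CharZero L] (A : Act (baseW T.W L) Γ) (X : 𝒱.Obj) :
    (∀ n j c, IsHodge T (pw X n) j c → (tPred A).P (pw X n) j (em T.W L c)) ∨
      Tendsto (fun n => (dimBy T.W (cPred A).P (pw X n) : ℝ) / hodgeDim T (pw X n)) atTop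
        (𝓝 0) := by
  rcases subsingleton_or_nontrivial (T.W.H X) with hs | hn
  · left
    intro n j x _
    have h1 : Subsingleton (T.W.H (pw X n)) := trivial_pw n
    rw [Subsingleton.elim x 0, em_zero]
    exact (tPred A).zero
  obtain ⟨l, hl, hl1⟩ := exists_tr_cPred A X
  rcases growth_or (cPred A).sys (hodgeSys T) (cPred_le A) X
    (ClassPred.sp_of (Q := cPred A) hl) hl1 with ⟨m, P, -, hP⟩ | h
  · left
    intro n j c hc
    refine ⟨em_gr hc.1, ?_⟩
    by_cases hc0 : c = 0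
    · exact ⟨⊤, inferInstance, fun g _ => by rw [hc0, em_zero, map_zero, smul_zero]⟩
    rcases Nat.eq_zero_or_pos j with hj | hj
    · subst hj
      have h1 : c ∈ Submodule.span T.W.K {(1 : T.W.H (pw X n))} := by
        rw [← T.W.gr_zero]; exact hc.1
      obtain ⟨r, rfl⟩ := Submodule.mem_span_singleton.1 h1
      refine ⟨⊤, inferInstance, fun g _ => ?_⟩
      rw [em_smul, (A.C g).semi, A.lin, pow_zero, one_smul]
      congr 1
      exact map_one ((A.C g).e (pw X n))
    · obtain ⟨D, hD, hD0⟩ := exists_div hj ⟨c, hc.1, hc0⟩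
      have hD1 : (baseW T.W L).cl (pw X n) D ≠ 0 := by
        rw [em_cl]
        exact fun h => hD0 (em_injective h)
      have hchar : CharZero (baseW T.W L).K := inferInstanceAs (CharZero L)
      obtain ⟨Δ, hΔ, h1⟩ := tate_of_genBy (emR T.W L) A (A.c_one hD hD1) (A.c_mul hD hD1)
        (exists_fix_all A) hP hc.1 (ClassPred.sp_of (Q := hodgePred T) hc)
      exact ⟨Δ, hΔ, fun g hg => (nop_eq_iff (em_gr hc.1)).1 (h1 g hg)⟩
  · right
    refine ratio_zero fun N => ?_
    obtain ⟨n₀, hn₀⟩ := h N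
    refine ⟨n₀, fun n hn => ?_⟩
    have h1 := hn₀ n hn
    rw [cPred_a] at h1
    exact h1

end Pool.Agent.W5h89.MTZ
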