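import Pool.Agent.Y121.AHS.Defs

/-!
# Galois actions on the cohomology with extended coefficients, and Tate classes: definitions

In the intended use `k` is a finitely generated subfield of `ℂ`, `T` is the Hodge theory
`X ↦ H(X(ℂ), ℚ)` for a class of smooth projective varieties over `k`, `L` is `ℚ_ℓ` (which has an
embedding into `ℂ`), and the Galois group `Γ` of `k` acts on
`L ⊗ H(X(ℂ), ℚ)`, the `ℓ`-adic cohomology of `X`.
-/

open CategoryTheory AlgebraicGeometry

universe u v

namespace Pool.Agent.W5h89.MTZ

open Pool.Agent.H914 Pool.Agent.Y121.AHS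

variable {k : Type u} [Field k] {𝒱 : VarClass k} {ops : CycleOps 𝒱}

/-- An action of the group `Γ` on the cohomology of all varieties of the class with coefficients
in `L`, with the formal properties of the action of the Galois group on `ℓ`-adic cohomology:
every element acts by a comparison isomorphism (from the theory to itself) which is linear
over `L`. The number `(act g).c` gives the action of `g` on the Tate twist. -/
structure GaloisAction (T : HodgeTheory ops) (L : Type) [Field L] [Algebra T.W.K L]
    (Γ : Type v) [Group Γ] where
  /-- the action of an element -/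
  act : Γ → Comparison T.W T.W L
  linear : ∀ g l, (act g).s l = l
  one : ∀ (X : 𝒱.Obj) (x : HL T.W L X), (act 1).e X x = x
  mul : ∀ g h (X : 𝒱.Obj) (x : HL T.W L X), (act (g * h)).e X x = (act g).e X ((act h).e X x)

variable {T : HodgeTheory ops} {L : Type} [Field L] [Algebra T.W.K L] {Γ : Type v} [Group Γ]

/-- The Tate classes of degree `2 j`: the classes in `H^(2 j)(X)` on which the elements `g` of a
subgroup of finite index act as the multiplication by `c ^ j`, `c = (act g).c` (that is, the classes
in `H^(2 j)(X)(j)` which are fixed by an open subgroup). -/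
def IsTate (A : GaloisAction T L Γ) (X : 𝒱.Obj) (j : ℕ) (x : HL T.W L X) : Prop :=
  IsDeg (2 * j) x ∧ ∃ Δ : Subgroup Γ, Δ.FiniteIndex ∧
    ∀ g ∈ Δ, (A.act g).e X x = twL (A.act g).c j x

/-- The dimension over `L` of the space spanned by the Tate classes of all degrees. -/
noncomputable def tateDim (A : GaloisAction T L Γ) (X : 𝒱.Obj) : ℕ :=
  Module.finrank L (Submodule.span L {x : HL T.W L X | ∃ j, IsTate A X j x})

/-- Every Tate class of degree `2 j` is a linear combination, with coefficients in `L`, of Hodge
classes of degree `2 j`. -/
def TateIsHodge (A : GaloisAction T L Γ) (X : 𝒱.Obj) (j : ℕ) : Prop :=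
  ∀ x, IsTate A X j x → x ∈ Submodule.span L {y | ∃ c, IsHodge T X j c ∧ emL T.W L c = y}

/-- The Hodge classes of degree `2 j` are Tate classes. -/
def HodgeIsTate (A : GaloisAction T L Γ) (X : 𝒱.Obj) (j : ℕ) : Prop :=
  ∀ c, IsHodge T X j c → IsTate A X j (emL T.W L c)

end Pool.Agent.W5h89.MTZ
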