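import Pool.Agent.W5h89.MTZ.Main
import Pool.Agent.W5h89.MTZ.Defs
import Pool.Agent.Y121.AHS.Conv

/-!
# The zero-one law for the Mumford-Tate conjecture
-/

open CategoryTheory AlgebraicGeometry TensorProduct Filter Topology

universe u v

namespace Pool.Agent.W5h89.MTZ

open Module
open Pool.Agent.H914 Pool.Agent.H914.VarClass Pool.Agent.H914.VarClass.Obj
  Pool.Agent.H914.WeilCohomology
open Pool.Agent.Y121 Pool.Agent.Y121.AHS
open Pool.Agent.Y133.Half (pw ClassPred dimBy)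

variable {k : Type u} [Field k] {𝒱 : VarClass k} {ops : CycleOps 𝒱}
variable {T : HodgeTheory ops} {L : Type} [Field L] [Algebra T.W.K L] {Γ : Type v} [Group Γ]

/-- The element `g` as a comparison isomorphism. -/
noncomputable def cg (A : GaloisAction T L Γ) (g : Γ) :
    AH.Comparison (baseW (toH T).W L) (baseW (toH T).W L) := toC (A.act g)

lemma cg_linear (A : GaloisAction T L Γ) (g : Γ) (l : (baseW (toH T).W L).K) :
    (cg A g).s l = l := A.linear g l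

/-- The Tate classes. -/
noncomputable def tatePred (A : GaloisAction T L Γ)
    (hcl : ∀ (X : 𝒱.Obj) (j : ℕ) (z : X.Cycles), X.IsCyc j z →
      IsTate A X j (emL T.W L (T.W.cl X z))) :
    ClassPred (baseW (toH T).W L) where
  P X j x := x ∈ (baseW (toH T).W L).gr X (2 * j) ∧ ∃ Δ : Subgroup Γ, Δ.FiniteIndex ∧
    ∀ g ∈ Δ, (cg A g).e X x = (cg A g).c ^ j • x
  gr h := h.1
  zero {X j} := ⟨Submodule.zero_mem _, ⊤, inferInstance, fun g _ => by rw [map_zero, smul_zero]⟩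
  add := by
    rintro X j a b ⟨ha, Δ, hΔ, h1⟩ ⟨hb, Δ', hΔ', h2⟩
    refine ⟨Submodule.add_mem _ ha hb, Δ ⊓ Δ', inferInstance, fun g hg => ?_⟩
    rw [map_add, h1 g hg.1, h2 g hg.2, smul_add]
  smul := by
    rintro X j r a ⟨ha, Δ, hΔ, h1⟩
    refine ⟨Submodule.smul_mem _ _ ha, Δ, hΔ, fun g hg => ?_⟩
    rw [(cg A g).semi, cg_linear, h1 g hg, smul_comm]
  cl := by
    intro X j z hz
    obtain ⟨h1, Δ, hΔ, h2⟩ := hcl X j z hz
    exact ⟨h1, Δ, hΔ, fun g hg => h2 g hg⟩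
  mul := by
    rintro X i j a b ⟨ha, Δ, hΔ, h1⟩ ⟨hb, Δ', hΔ', h2⟩
    refine ⟨by rw [mul_add]; exact (baseW (toH T).W L).mul_mem ha hb, Δ ⊓ Δ', inferInstance,
      fun g hg => ?_⟩
    rw [map_mul (((cg A g).e X)), h1 g hg.1, h2 g hg.2, smul_mul_smul_comm, pow_add]
  map := by
    rintro X Y f j a ⟨ha, Δ, hΔ, h1⟩
    refine ⟨(baseW (toH T).W L).map_mem f ha, Δ, hΔ, fun g hg => ?_⟩
    rw [(cg A g).nat, h1 g hg, map_smul]
  push := by
    rintro X Y f j l hl a ⟨ha, Δ, hΔ, h1⟩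
    refine ⟨AH.push_gr f hl ha, Δ, hΔ, fun g hg => ?_⟩
    have h2 := (cg A g).push f a
    rw [h1 g hg, map_smul, smul_smul, ← pow_add] at h2
    have h3 : (cg A g).c ^ X.dim ≠ 0 := pow_ne_zero _ (cg A g).ne
    have h4 : (cg A g).c ^ X.dim • (cg A g).e Y ((baseW (toH T).W L).push f a) =
        (cg A g).c ^ X.dim • ((cg A g).c ^ l • (baseW (toH T).W L).push f a) := by
      rw [h2, smul_smul, ← pow_add]
      congr 2
      omega
    exact smul_right_injective _ h3 h4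

/-- **The zero-one law for the Mumford-Tate conjecture.** -/
theorem zero_one_tate (hL : Nonempty (L →+* ℂ)) (A : GaloisAction T L Γ)
    (hD : ∀ (Y : 𝒱.Obj) (j : ℕ), HodgeIsTate A Y j) (X : 𝒱.Obj) :
    (∀ n j, TateIsHodge A (pw X n) j) ∨
      RatioToZero (fun n => hodgeDim T (pw X n)) fun n => tateDim A (pw X n) := by
  obtain ⟨τ⟩ := hL
  have hcl : ∀ (X : 𝒱.Obj) (j : ℕ) (z : X.Cycles), X.IsCyc j z →
      IsTate A X j (emL T.W L (T.W.cl X z)) := fun X j z hz => hD X j _ (T.cyc X j z hz)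
  have hR : ∀ (X : 𝒱.Obj) (j : ℕ) (c : (toH T).W.H X), AH.IsHodge (toH T) X j c →
      (tatePred A hcl).P X j (AH.em (toH T).W L c) := by
    intro X j c hc
    obtain ⟨h1, Δ, hΔ, h2⟩ := hD X j c hc
    exact ⟨h1, Δ, hΔ, fun g hg => h2 g hg⟩
  rcases zero_one (T := toH T) τ (tatePred A hcl) hR X with h | h
  · left
    intro n j x hx
    obtain ⟨h1, Δ, hΔ, h2⟩ := hx
    exact h n j x ⟨h1, Δ, hΔ, fun g hg => h2 g hg⟩
  · right
    exact h

end Pool.Agent.W5h89.MTZ
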