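import Pool.Agent.W5h89.MTZ.Com

/-!
# Hodge classes which are Tate classes for all actions in a class of actions
-/

open CategoryTheory AlgebraicGeometry TensorProduct Filter Topology

universe u v

namespace Pool.Agent.W5h89.MTZ

open Module
open Pool.Agent.H914 Pool.Agent.H914.VarClass Pool.Agent.H914.VarClass.Obj
  Pool.Agent.H914.WeilCohomology
open Pool.Agent.Y133.Half Pool.Agent.Y121.AH

variable {k : Type u} [Field k] {𝒱 : VarClass k} {ops : CycleOps 𝒱} {T : HodgeTheory ops}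
  {X Y Z P : 𝒱.Obj}

/-- An action together with its coefficients, with an embedding of the coefficients into the complex
numbers. -/
structure BAct (T : HodgeTheory ops) : Type (max (u + 1) (v + 1)) where
  /-- the coefficients -/
  L : Type
  [fld : Field L]
  [alg : Algebra T.W.K L]
  /-- the group -/
  Γ : Type v
  [grp : Group Γ]
  /-- the action -/
  A : Act (baseW T.W L) Γ
  /-- the embedding -/
  τ : L →+* ℂ

attribute [instance] BAct.fld BAct.alg BAct.grp

variable (S : Set (BAct.{u, v} T))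

/-- The Hodge classes which are fixed by subgroups of finite index for all actions. -/
noncomputable def ePred : ClassPred T.W where
  P X j c := IsHodge T X j c ∧ ∀ i ∈ S, (tPred i.A).P X j (em T.W i.L c)
  gr h := h.1.1
  zero {X j} := ⟨(hodgePred T).zero, fun i _ => by rw [em_zero]; exact (tPred i.A).zero⟩
  add h1 h2 := ⟨(hodgePred T).add h1.1 h2.1, fun i hi => by
    rw [em_add]; exact (tPred i.A).add (h1.2 i hi) (h2.2 i hi)⟩
  smul := by
    rintro X j r a h
    exact ⟨(hodgePred T).smul r h.1, fun i hi => by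
      rw [em_smul]; exact (tPred i.A).smul _ (h.2 i hi)⟩
  cl h := ⟨(hodgePred T).cl h, fun i _ => by rw [← em_cl]; exact (tPred i.A).cl h⟩
  mul h1 h2 := ⟨(hodgePred T).mul h1.1 h2.1, fun i hi => by
    rw [em_mul]; exact (tPred i.A).mul (h1.2 i hi) (h2.2 i hi)⟩
  map := by
    rintro X Y f j a h
    exact ⟨(hodgePred T).map f h.1, fun i hi => by
      rw [← em_map]; exact (tPred i.A).map f (h.2 i hi)⟩
  push := by
    rintro X Y f j l hl a h
    exact ⟨(hodgePred T).push f hl h.1, fun i hi => by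
      rw [← em_push]; exact (tPred i.A).push f hl (h.2 i hi)⟩

variable {S}

lemma ePred_cPred {j : ℕ} {c : T.W.H X} (h : (ePred S).P X j c) {i : BAct T} (hi : i ∈ S) :
    (cPred i.A).P X j c := ⟨h.1, h.2 i hi⟩

/-- The Lefschetz isomorphisms. -/
lemma lifts_ePred : Lifts T (ePred S) := by
  intro X D hD j hj v hv
  obtain ⟨x, hx, hxv⟩ := lifts_hodge T X D hD j hj v hv.1
  refine ⟨x, ⟨hx, fun i hi => ?_⟩, hxv⟩
  obtain ⟨x', hx', hxv'⟩ := lifts_cPred i.A X D hD j hj v (ePred_cPred hv hi)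
  have h1 : x - x' = 0 := by
    refine hl_inj hD.2.1 hj (Submodule.sub_mem _ hx.1 hx'.1.1) ?_
    rw [mul_sub, hxv, hxv', sub_self]
  rw [sub_eq_zero.1 h1]
  exact hx'.2

lemma ePred_nondeg (X : 𝒱.Obj) : (ePred S).sys.Nondeg X := fun _ hx hxy =>
  q_nondeg_sys (Q := ePred S) (fun h => h.1) lifts_ePred hx hxy

/-- There is a class of degree one. -/
lemma exists_tr_ePred (X : 𝒱.Obj) [Nontrivial (T.W.H X)] :
    ∃ l, (ePred S).P X X.dim l ∧ T.W.tr X l = 1 := by
  obtain ⟨E, hE⟩ := T.dec.polar X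
  have h1 : (1 : T.W.H X) ∈ T.W.gr X (2 * 0) := T.W.one_mem X
  have h2 : IsHodge T X 0 (1 : T.W.H X) := by
    rw [← T.W.cl_fund X]; exact IsHodge.cl X.V.fundCycle_mem
  have h3 : T.W.cl X E ^ (X.dim - 2 * 0 + 1) * (1 : T.W.H X) = 0 := by
    have h4 := ((IsHodge.cl (T := T) hE.1).pow (X.dim - 2 * 0 + 1)).1
    rw [T.W.gr_eq_bot X _ (by omega)] at h4
    rw [(Submodule.mem_bot _).1 h4, zero_mul]
  obtain ⟨r, hr, h4⟩ := hE.2.2 0 (by omega) 1 h1 h2.2 h3 one_ne_zero
  have h5 : (ePred S).P X X.dim (T.W.cl X E ^ (X.dim - 2 * 0) * 1 * 1) := by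
    rw [mul_one, mul_one]
    have := q_pow (Q := ePred S) ((ePred S).cl hE.1) (X.dim - 2 * 0)
    rwa [one_mul] at this
  rw [pow_zero, one_mul] at h4
  have hr0 : (r : T.W.K) ≠ 0 := by exact_mod_cast hr.ne'
  refine ⟨(r : T.W.K)⁻¹ • _, (ePred S).smul _ h5, ?_⟩
  rw [map_smul, h4, smul_eq_mul, inv_mul_cancel₀ hr0]

lemma ePred_le_cPred {i : BAct T} (hi : i ∈ S) (X : 𝒱.Obj) :
    (ePred S).sys.C X ≤ (cPred i.A).sys.C X := by
  intro x hx
  refine ClassPred.sp_ind (Q := ePred S) (q := fun x => x ∈ (cPred i.A).sp X) ?_ ?_ ?_ hx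
  · intro j x hx
    exact ClassPred.sp_of (Q := cPred i.A) (ePred_cPred hx hi)
  · exact Submodule.zero_mem _
  · intro x y hx hy
    exact Submodule.add_mem _ hx hy

lemma ePred_le (X : 𝒱.Obj) : (ePred S).sys.C X ≤ (hodgeSys T).C X := by
  intro x hx
  refine ClassPred.sp_ind (Q := ePred S) (q := fun x => x ∈ (hodgePred T).sp X) ?_ ?_ ?_ hx
  · intro j x hx
    exact ClassPred.sp_of (Q := hodgePred T) hx.1
  · exact Submodule.zero_mem _
  · intro x y hx hy
    exact Submodule.add_mem _ hx hy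

lemma ePred_base_le {i : BAct T} (hi : i ∈ S) (X : 𝒱.Obj) :
    ((ePred S).sys.base i.L).C X ≤ ((cPred i.A).sys.base i.L).C X :=
  Submodule.baseChange_mono i.L (ePred_le_cPred hi X)

lemma ePred_base_a (i : BAct T) (X : 𝒱.Obj) :
    ((ePred S).sys.base i.L).a X = dimBy T.W (ePred S).P X := by
  have h2 := Sys.nondeg_iff.1 ((ePred_nondeg (S := S) X).base i.L)
  rw [h2, Sys.finrank_base]
  rfl

lemma ePred_a (X : 𝒱.Obj) : (ePred S).sys.a X = dimBy T.W (ePred S).P X := by
  have h2 := Sys.nondeg_iff.1 (ePred_nondeg (S := S) X)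
  rw [h2]
  rfl

/-- The degree zero. -/
lemma ePred_one (X : 𝒱.Obj) : (ePred S).P X 0 (1 : T.W.H X) := by
  rw [← T.W.cl_fund X]
  exact (ePred S).cl X.V.fundCycle_mem

/-- The extension of the action to the complex numbers. -/
noncomputable def BAct.AC (i : BAct T) : Act (baseW T.W ℂ) i.Γ := i.A.ext (ratAlg T i.τ)

variable (S) in
/-- The classes of type `(j, j)` which are fixed by subgroups of finite index for all actions, after
extension of the coefficients. -/
noncomputable def eB (X : 𝒱.Obj) (j : ℕ) :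
    Submodule (CW T).K ((CW T).H X) where
  carrier := {y | y ∈ T.pq X j j ∧ ∀ i ∈ S, (tPred (T := T) (L := ℂ) i.AC).P X j y}
  add_mem' h1 h2 := ⟨Submodule.add_mem _ h1.1 h2.1, fun i hi =>
    (tPred i.AC).add (h1.2 i hi) (h2.2 i hi)⟩
  zero_mem' := ⟨Submodule.zero_mem _, fun i _ => (tPred i.AC).zero⟩
  smul_mem' r _ h := ⟨Submodule.smul_mem _ _ h.1, fun i hi =>
    (tPred i.AC).smul r (h.2 i hi)⟩

lemma ePred_of_eB {j : ℕ} {c : T.W.H X} (hgr : c ∈ T.W.gr X (2 * j))
    (h : em T.W ℂ c ∈ eB S X j) : (ePred S).P X j c := by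
  obtain ⟨h1, h2⟩ := h
  refine ⟨⟨hgr, h1⟩, fun i hi => ?_⟩
  obtain ⟨h3, Δ, hΔ, h4⟩ := h2 i hi
  refine ⟨em_gr hgr, Δ, hΔ, fun g hg => ?_⟩
  apply fix_of_ext (ratAlg T i.τ) i.A
  rw [psi_em]
  exact h4 g hg

/-- For each variety and each action there is a subgroup of finite index which fixes all classes, after
extension of the coefficients. -/
lemma exists_fix_eB {L : Type} [Field L] [Algebra T.W.K L] {i' : BAct T} (hi' : i' ∈ S)
    (τ' : L →+* ℂ) (Y : 𝒱.Obj) :
    ∃ Δ : Subgroup i'.Γ, Δ.FiniteIndex ∧ ∀ g ∈ Δ, ∀ x ∈ ((ePred S).sys.base L).C Y,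
      nop (i'.AC.C g) (i'.AC.lin g) Y ((psiR T τ').E Y x) = (psiR T τ').E Y x := by
  obtain ⟨Δ, hΔ, h⟩ := exists_fix_all i'.A Y
  refine ⟨Δ, hΔ, fun g hg x hx => ?_⟩
  have hx' : x ∈ ((ePred S).sys.C Y).baseChange L := hx
  refine base_induction (P := fun x : L ⊗[T.W.K] T.W.H Y =>
    nop (i'.AC.C g) (i'.AC.lin g) Y
      ((psiR T τ').E Y (show (baseW T.W L).H Y from x)) =
        (psiR T τ').E Y (show (baseW T.W L).H Y from x)) ?_ ?_ ?_ hx'
  · have h0 : (psiR T τ').E Y (show (baseW T.W L).H Y from (0 : L ⊗[T.W.K] T.W.H Y)) = 0 :=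
      map_zero _
    rw [h0, map_zero]
  · intro x y hx hy
    have h0 : (psiR T τ').E Y (show (baseW T.W L).H Y from (x + y : L ⊗[T.W.K] T.W.H Y)) =
      (psiR T τ').E Y (show (baseW T.W L).H Y from x) +
        (psiR T τ').E Y (show (baseW T.W L).H Y from y) := map_add _ _ _
    rw [h0, map_add, hx, hy]
  · intro l a ha
    rw [tmul_eq, psiR_E, psi_smul, psi_em, map_smul]
    congr 1
    have ha' : a ∈ (ePred S).sp Y := ha
    refine ClassPred.sp_ind (Q := ePred S)
      (q := fun x => nop (i'.AC.C g) (i'.AC.lin g) Y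
        (em T.W ℂ x) = em T.W ℂ x) ?_ ?_ ?_ ha'
    · intro j x hx
      have h1 := h g hg x (ClassPred.sp_of (Q := cPred i'.A) (ePred_cPred hx hi'))
      rw [nop_eq_iff (em_gr hx.1.1)] at h1
      rw [nop_eq_iff (em_gr hx.1.1), ← psi_em (ratAlg T i'.τ), BAct.AC, ext_psi, h1, psi_smul,
        map_pow (kap T.W (ratAlg T i'.τ))]
      rfl
    · rw [em_zero, map_zero]
    · intro x y hx hy
      rw [em_add, map_add, hx, hy]

/-- **The law for the Tate classes.** -/
theorem law_ev {i : BAct T} (hi : i ∈ S) (X : 𝒱.Obj) :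
    (∀ n j x, (tPred i.A).P (pw X n) j x → x ∈ Submodule.span (baseW T.W i.L).K
        {y | ∃ c, (ePred S).P (pw X n) j c ∧ em T.W i.L c = y}) ∨
      Tendsto (fun n => (dimBy T.W (ePred S).P (pw X n) : ℝ) /
        dimBy (baseW T.W i.L) (tPred i.A).P (pw X n)) atTop (𝓝 0) := by
  rcases subsingleton_or_nontrivial (T.W.H X) with hs | hn
  · left
    intro n j x _
    have h1 : Subsingleton (T.W.H (pw X n)) := trivial_pw n
    have h2 : ∀ x : (baseW T.W i.L).H (pw X n), x = 0 := by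
      intro x
      refine tmul_ind (p := fun x => x = 0) rfl ?_ ?_ x
      · rintro x y rfl rfl; rw [add_zero]
      · intro l a
        rw [tmul_eq, Subsingleton.elim a 0, em_zero, smul_zero]
    rw [h2 x]
    exact Submodule.zero_mem _
  obtain ⟨l, hl, hl1⟩ := exists_tr_ePred (S := S) X
  have hl2 : em T.W i.L l ∈ ((ePred S).sys.base i.L).C X :=
    Submodule.tmul_mem_baseChange_of_mem (1 : i.L) (ClassPred.sp_of (Q := ePred S) hl)
  have hl3 : (baseW T.W i.L).tr X (em T.W i.L l) = 1 := by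
    rw [em_tr, hl1]; exact map_one (algebraMap T.W.K i.L)
  rcases growth_or ((ePred S).sys.base i.L) (tPred i.A).sys
    (fun X => (ePred_base_le hi X).trans (cPred_base_le' i.A X)) X hl2 hl3 with
    ⟨m, P, -, hP⟩ | h
  · left
    intro n j x hx
    by_cases hx0 : x = 0
    · rw [hx0]; exact Submodule.zero_mem _
    rcases Nat.eq_zero_or_pos j with hj | hj
    · subst hj
      have h1 : x ∈ Submodule.span (baseW T.W i.L).K {(1 : (baseW T.W i.L).H (pw X n))} := by
        rw [← (baseW T.W i.L).gr_zero]; exact hx.1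
      obtain ⟨r, rfl⟩ := Submodule.mem_span_singleton.1 h1
      exact Submodule.smul_mem _ _ (Submodule.subset_span ⟨1, ePred_one _, rfl⟩)
    · have hex : ∃ c ∈ T.W.gr (pw X n) (2 * j), c ≠ 0 := by
        by_contra hcon
        push Not at hcon
        apply hx0
        have h1 : x ∈ (T.W.gr (pw X n) (2 * j)).baseChange i.L := hx.1
        refine base_induction (P := fun x : i.L ⊗[T.W.K] T.W.H (pw X n) =>
          (show (baseW T.W i.L).H (pw X n) from x) = 0) rfl ?_ ?_ h1
        · intro x y hx hy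
          have h2 : (show (baseW T.W i.L).H (pw X n) from x) +
            (show (baseW T.W i.L).H (pw X n) from y) = 0 := by rw [hx, hy, add_zero]
          exact h2
        · intro l a ha
          rw [tmul_eq, hcon a ha, em_zero, smul_zero]
      obtain ⟨D, hD, hD0⟩ := exists_div hj hex
      have hD1 : (CW T).cl (pw X n) D ≠ 0 := by
        rw [em_cl]
        exact fun h => hD0 (em_injective h)
      have hchar : CharZero (CW T).K := inferInstanceAs (CharZero ℂ)
      have h0 := mem_span_desc (X := pw X n) i.τ (w := x) (B := eB S (pw X n) j) (by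
        intro g
        refine ⟨?_, fun i' hi' => ?_⟩
        · have h1 := fix_of_genBy (psiR T (g.toRingHom.comp i.τ)) hP
            (fun X x hx => base_fix _ X x
              (cPred_base_le i.A X (ePred_base_le hi X hx)))
            ((tPred i.A).gr hx) (ClassPred.sp_of (Q := tPred i.A) hx)
          exact pq_of_fix' ((psiR T (g.toRingHom.comp i.τ)).gr ((tPred i.A).gr hx)) h1
        · obtain ⟨Δ, hΔ, h1⟩ := tate_of_genBy (psiR T (g.toRingHom.comp i.τ))
            i'.AC (i'.AC.c_one hD hD1) (i'.AC.c_mul hD hD1)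
            (exists_fix_eB hi' (g.toRingHom.comp i.τ)) hP ((tPred i.A).gr hx)
            (ClassPred.sp_of (Q := tPred i.A) hx)
          have h2 : psi T.W (ratAlg T (g.toRingHom.comp i.τ)) (pw X n) x ∈
              (CW T).gr (pw X n) (2 * j) := psi_gr _ ((tPred i.A).gr hx)
          exact ⟨h2, Δ, hΔ, fun γ hγ => (nop_eq_iff h2).1 (h1 γ hγ)⟩)
      refine Submodule.span_mono ?_ h0
      rintro y ⟨c, hc, rfl⟩
      have hgr : c ∈ T.W.gr (pw X n) (2 * j) :=
        mem_of_em_mem (T.dec.le (pw X n) (by push_cast; ring) hc.1)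
      exact ⟨c, ePred_of_eB hgr hc, rfl⟩
  · right
    refine ratio_zero fun N => ?_
    obtain ⟨n₀, hn₀⟩ := h N
    refine ⟨n₀, fun n hn => ?_⟩
    have h1 := hn₀ n hn
    rw [ePred_base_a] at h1
    exact h1

lemma charZero_of_emb {L : Type} [Field L] (τ : L →+* ℂ) : CharZero L := ⟨fun a b hab => by
  have h := congrArg τ hab
  rw [map_natCast, map_natCast] at h
  exact_mod_cast h⟩

/-- **The law for the Hodge classes.** -/
theorem law_ev_hodge (X : 𝒱.Obj) :
    (∀ n j c, IsHodge T (pw X n) j c → (ePred S).P (pw X n) j c) ∨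
      Tendsto (fun n => (dimBy T.W (ePred S).P (pw X n) : ℝ) / hodgeDim T (pw X n)) atTop
        (𝓝 0) := by
  rcases subsingleton_or_nontrivial (T.W.H X) with hs | hn
  · left
    intro n j x _
    have h1 : Subsingleton (T.W.H (pw X n)) := trivial_pw n
    rw [Subsingleton.elim x 0]
    exact (ePred S).zero
  obtain ⟨l, hl, hl1⟩ := exists_tr_ePred (S := S) X
  rcases growth_or (ePred S).sys (hodgeSys T) ePred_le X
    (ClassPred.sp_of (Q := ePred S) hl) hl1 with ⟨m, P, -, hP⟩ | h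
  · left
    intro n j c hc
    by_cases hc0 : c = 0
    · rw [hc0]; exact (ePred S).zero
    rcases Nat.eq_zero_or_pos j with hj | hj
    · subst hj
      have h1 : c ∈ Submodule.span T.W.K {(1 : T.W.H (pw X n))} := by
        rw [← T.W.gr_zero]; exact hc.1
      obtain ⟨r, rfl⟩ := Submodule.mem_span_singleton.1 h1
      exact (ePred S).smul r (ePred_one _)
    · refine ⟨hc, fun i hi => ⟨em_gr hc.1, ?_⟩⟩
      obtain ⟨D, hD, hD0⟩ := exists_div hj ⟨c, hc.1, hc0⟩
      have hD1 : (baseW T.W i.L).cl (pw X n) D ≠ 0 := by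
        rw [em_cl]
        exact fun h => hD0 (em_injective h)
      have hchar : CharZero (baseW T.W i.L).K := charZero_of_emb i.τ
      obtain ⟨Δ, hΔ, h1⟩ := tate_of_genBy (emR T.W i.L) i.A (i.A.c_one hD hD1)
        (i.A.c_mul hD hD1) (fun Y => by
          obtain ⟨Δ, hΔ, h2⟩ := exists_fix_all i.A Y
          exact ⟨Δ, hΔ, fun g hg x hx => h2 g hg x (ePred_le_cPred hi Y hx)⟩)
        hP hc.1 (ClassPred.sp_of (Q := hodgePred T) hc)
      exact ⟨Δ, hΔ, fun g hg => (nop_eq_iff (em_gr hc.1)).1 (h1 g hg)⟩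
  · right
    refine ratio_zero fun N => ?_
    obtain ⟨n₀, hn₀⟩ := h N
    refine ⟨n₀, fun n hn => ?_⟩
    have h1 := hn₀ n hn
    rw [ePred_a] at h1
    exact h1

end Pool.Agent.W5h89.MTZ
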